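import Mathlib

set_option autoImplicit false

open MvPolynomial Finset Equiv

namespace Pool.Agent.Lib.MP_ef3722_al

/-- Polynomials in the variables `y_r`. -/
abbrev K (n : ℕ) := MvPolynomial (Fin n) ℂ

variable {n : ℕ}

/-- The sign of a permutation as a complex number. -/
noncomputable def sg (σ : Perm (Fin n)) : ℂ := ((Perm.sign σ : ℤ) : ℂ)

lemma sg_mul (σ τ : Perm (Fin n)) : sg (σ * τ) = sg σ * sg τ := by
  simp [sg]

lemma sg_one : sg (1 : Perm (Fin n)) = 1 := by simp [sg]

lemma sg_mul_self (σ : Perm (Fin n)) : sg σ * sg σ = 1 := by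
  unfold sg
  rcases Int.units_eq_one_or (Perm.sign σ) with h | h <;> simp [h]

lemma sg_ne_zero (σ : Perm (Fin n)) : sg σ ≠ 0 := fun h => by
  have := sg_mul_self σ
  simp [h] at this

lemma sg_inv (σ : Perm (Fin n)) : sg σ⁻¹ = sg σ := by simp [sg]

lemma sg_swap {r r' : Fin n} (h : r ≠ r') : sg (swap r r') = -1 := by
  simp [sg, Perm.sign_swap h]

/-- The stabiliser of a labelling. -/
def stab (μ : Fin n → ℕ) : Finset (Perm (Fin n)) := univ.filter (fun σ => ∀ r, μ (σ r) = μ r)

lemma mem_stab {μ : Fin n → ℕ} {σ : Perm (Fin n)} : σ ∈ stab μ ↔ ∀ r, μ (σ r) = μ r := by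
  simp [stab]

lemma one_mem_stab (μ : Fin n → ℕ) : (1 : Perm (Fin n)) ∈ stab μ := by simp [mem_stab]

lemma mul_mem_stab {μ : Fin n → ℕ} {σ τ : Perm (Fin n)} (h1 : σ ∈ stab μ) (h2 : τ ∈ stab μ) :
    σ * τ ∈ stab μ := by
  rw [mem_stab] at *
  intro r
  simp [h1, h2]

lemma inv_mem_stab {μ : Fin n → ℕ} {σ : Perm (Fin n)} (h1 : σ ∈ stab μ) : σ⁻¹ ∈ stab μ := by
  rw [mem_stab] at *
  intro r
  have := h1 (σ⁻¹ r)
  simpa using this.symm

lemma swap_mem_stab {μ : Fin n → ℕ} {r r' : Fin n} (h : μ r = μ r') : swap r r' ∈ stab μ := by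
  rw [mem_stab]
  intro k
  rcases eq_or_ne k r with rfl | h1
  · simp [h]
  rcases eq_or_ne k r' with rfl | h2
  · simp [h]
  rw [swap_apply_of_ne_of_ne h1 h2]

lemma card_stab_ne_zero (μ : Fin n → ℕ) : ((stab μ).card : ℂ) ≠ 0 := by
  have : 0 < (stab μ).card := Finset.card_pos.mpr ⟨1, one_mem_stab μ⟩
  exact_mod_cast this.ne'

lemma sum_stab_mul_left {M : Type*} [AddCommMonoid M] {μ : Fin n → ℕ} {τ : Perm (Fin n)}
    (hτ : τ ∈ stab μ) (f : Perm (Fin n) → M) : ∑ σ ∈ stab μ, f (τ * σ) = ∑ σ ∈ stab μ, f σ := by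
  refine Finset.sum_bij' (fun σ _ => τ * σ) (fun σ _ => τ⁻¹ * σ) ?_ ?_ ?_ ?_ ?_
  · intro σ h; exact mul_mem_stab hτ h
  · intro σ h; exact mul_mem_stab (inv_mem_stab hτ) h
  · intro σ _; simp
  · intro σ _; simp
  · intro σ _; rfl

lemma sum_stab_mul_right {M : Type*} [AddCommMonoid M] {μ : Fin n → ℕ} {τ : Perm (Fin n)}
    (hτ : τ ∈ stab μ) (f : Perm (Fin n) → M) : ∑ σ ∈ stab μ, f (σ * τ) = ∑ σ ∈ stab μ, f σ := by
  refine Finset.sum_bij' (fun σ _ => σ * τ) (fun σ _ => σ * τ⁻¹) ?_ ?_ ?_ ?_ ?_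
  · intro σ h; exact mul_mem_stab h hτ
  · intro σ h; exact mul_mem_stab h (inv_mem_stab hτ)
  · intro σ _; simp
  · intro σ _; simp
  · intro σ _; rfl

lemma rename_perm_mul (σ τ : Perm (Fin n)) (f : K n) :
    rename (σ * τ) f = rename σ (rename τ f) := by
  rw [rename_rename]; rfl

/-- Antisymmetriser over the stabiliser of a labelling. -/
noncomputable def altK (μ : Fin n → ℕ) : K n →ₗ[ℂ] K n :=
  ∑ σ ∈ stab μ, sg σ • (rename σ : K n →ₐ[ℂ] K n).toLinearMap

lemma altK_apply (μ : Fin n → ℕ) (f : K n) : altK μ f = ∑ σ ∈ stab μ, sg σ • rename σ f := by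
  simp [altK, LinearMap.sum_apply]

lemma rename_altK {μ : Fin n → ℕ} {τ : Perm (Fin n)} (hτ : τ ∈ stab μ) (f : K n) :
    rename τ (altK μ f) = sg τ • altK μ f := by
  rw [altK_apply, map_sum, Finset.smul_sum,
    ← sum_stab_mul_left hτ (fun σ => sg τ • sg σ • rename σ f)]
  refine Finset.sum_congr rfl fun σ _ => ?_
  rw [map_smul, rename_perm_mul, sg_mul, smul_smul, ← mul_assoc, sg_mul_self, one_mul]

lemma altK_mul_of_inv {μ : Fin n → ℕ} {p : K n} (hp : ∀ σ ∈ stab μ, rename σ p = p) (f : K n) :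
    altK μ (p * f) = p * altK μ f := by
  rw [altK_apply, altK_apply, Finset.mul_sum]
  refine Finset.sum_congr rfl fun σ hσ => ?_
  rw [map_mul, hp σ hσ, mul_smul_comm]

lemma altK_of_alt {μ : Fin n → ℕ} {f : K n} (hf : ∀ σ ∈ stab μ, rename σ f = sg σ • f) :
    altK μ f = ((stab μ).card : ℂ) • f := by
  rw [altK_apply, Finset.sum_congr rfl (g := fun _ => f)]
  · rw [Finset.sum_const, Nat.cast_smul_eq_nsmul]
  · intro σ hσ
    rw [hf σ hσ, smul_smul, sg_mul_self, one_smul]

/-! Linear forms `y_r - y_s`. -/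

lemma dvd_sub_rename_update (r s : Fin n) (f : K n) :
    (X r - X s : K n) ∣ f - rename (Function.update id r s) f := by
  induction f using MvPolynomial.induction_on with
  | C a => simp
  | add p q hp hq =>
    have : p + q - rename (Function.update id r s) (p + q) =
        (p - rename (Function.update id r s) p) + (q - rename (Function.update id r s) q) := by
      rw [map_add]; ring
    rw [this]; exact dvd_add hp hq
  | mul_X p k hp =>
    have : p * X k - rename (Function.update id r s) (p * X k) =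
        (p - rename (Function.update id r s) p) * X k +
          rename (Function.update id r s) p * (X k - X (Function.update id r s k)) := by
      rw [map_mul, rename_X]; ring
    rw [this]
    refine dvd_add (hp.mul_right _) (Dvd.dvd.mul_left ?_ _)
    rcases eq_or_ne k r with rfl | h
    · simp
    · simp [Function.update_of_ne h]

lemma rename_update_sub (r s : Fin n) :
    rename (Function.update id r s) (X r - X s : K n) = 0 := by
  rcases eq_or_ne s r with rfl | h
  · simp
  · simp [Function.update_of_ne h]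

lemma X_sub_X_dvd_iff (r s : Fin n) (f : K n) :
    (X r - X s : K n) ∣ f ↔ rename (Function.update id r s) f = 0 := by
  constructor
  · rintro ⟨g, rfl⟩
    rw [map_mul, rename_update_sub, zero_mul]
  · intro h
    have := dvd_sub_rename_update r s f
    rwa [h, sub_zero] at this

lemma X_sub_X_ne_zero {r s : Fin n} (h : r ≠ s) : (X r - X s : K n) ≠ 0 :=
  sub_ne_zero.mpr (fun e => h (X_injective e))

lemma prime_X_sub_X {r s : Fin n} (h : r ≠ s) : Prime (X r - X s : K n) := by
  refine ⟨X_sub_X_ne_zero h, ?_, ?_⟩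
  · intro hu
    have := hu.map (rename (R := ℂ) (Function.update id r s))
    rw [rename_update_sub] at this
    exact not_isUnit_zero this
  · intro a b hab
    simp only [X_sub_X_dvd_iff, map_mul] at *
    exact mul_eq_zero.mp hab

lemma X_sub_X_dvd_of_alt {r s : Fin n} {f : K n} (hf : rename (swap r s) f = -f) :
    (X r - X s : K n) ∣ f := by
  rw [X_sub_X_dvd_iff]
  have h1 : rename (Function.update id r s) (rename (swap r s) f) =
      rename (Function.update id r s) f := by
    rw [rename_rename]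
    congr 2
    funext k
    rcases eq_or_ne k r with rfl | h1
    · rcases eq_or_ne s k with rfl | h2
      · simp
      · simp [Function.update_of_ne h2]
    rcases eq_or_ne k s with rfl | h2
    · simp [Function.update_of_ne h1]
    simp [swap_apply_of_ne_of_ne h1 h2]
  rw [hf, map_neg] at h1
  have h2 : (2 : ℂ) • rename (Function.update id r s) f = 0 := by
    rw [two_smul]; nth_rewrite 1 [← h1]; simp
  exact (smul_eq_zero.mp h2).resolve_left two_ne_zero

lemma isRelPrime_X_sub_X {r s r' s' : Fin n} (h : r < s) (h' : r' < s')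
    (hne : (r, s) ≠ (r', s')) : IsRelPrime (X r - X s : K n) (X r' - X s') := by
  rw [(prime_X_sub_X h.ne).irreducible.isRelPrime_iff_not_dvd, X_sub_X_dvd_iff, map_sub,
    rename_X, rename_X]
  apply X_sub_X_ne_zero
  intro e
  rcases eq_or_ne r' r with rfl | h1
  · rcases eq_or_ne s' r' with rfl | h2
    · exact lt_irrefl _ h'
    · simp [Function.update_of_ne h2] at e
      exact hne (by rw [e])
  · rcases eq_or_ne s' r with rfl | h2
    · simp [Function.update_of_ne h1] at e
      subst e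
      exact lt_asymm h h'
    · simp [Function.update_of_ne h1, Function.update_of_ne h2] at e
      exact h'.ne e

/-- A product of powers of the differences. -/
noncomputable def vd (e : Fin n → Fin n → ℕ) : K n :=
  ∏ r, ∏ s ∈ Ioi r, (X r - X s) ^ e r s

lemma vd_ne_zero (e : Fin n → Fin n → ℕ) : vd e ≠ 0 := by
  unfold vd
  refine Finset.prod_ne_zero_iff.mpr fun r _ => Finset.prod_ne_zero_iff.mpr fun s hs => ?_
  exact pow_ne_zero _ (X_sub_X_ne_zero (Finset.mem_Ioi.mp hs).ne)

lemma vd_dvd {e : Fin n → Fin n → ℕ} {f : K n}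
    (h : ∀ r s, r < s → (X r - X s : K n) ^ e r s ∣ f) : vd e ∣ f := by
  unfold vd
  rw [Finset.prod_sigma']
  apply Finset.prod_dvd_of_isRelPrime
  · intro p hp q hq hpq
    simp only [Finset.coe_sigma, Set.mem_sigma_iff, Finset.mem_coe, Finset.mem_Ioi] at hp hq
    apply IsRelPrime.pow
    apply isRelPrime_X_sub_X hp.2 hq.2
    intro e
    apply hpq
    obtain ⟨p1, p2⟩ := p
    obtain ⟨q1, q2⟩ := q
    simp only [Prod.mk.injEq] at e
    obtain ⟨rfl, rfl⟩ := e
    rfl
  · intro p hp
    simp only [Finset.mem_sigma, Finset.mem_Ioi] at hp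
    exact h _ _ hp.2

lemma vd_add (e e' : Fin n → Fin n → ℕ) : vd (fun r s => e r s + e' r s) = vd e * vd e' := by
  simp only [vd, pow_add, Finset.prod_mul_distrib]

lemma vd_sum {ι : Type*} (t : Finset ι) (e : ι → Fin n → Fin n → ℕ) :
    vd (fun r s => ∑ j ∈ t, e j r s) = ∏ j ∈ t, vd (e j) := by
  classical
  induction t using Finset.induction_on with
  | empty => simp [vd]
  | insert a t ha ih => simp only [Finset.sum_insert ha, Finset.prod_insert ha, vd_add, ih]

lemma vd_congr {e e' : Fin n → Fin n → ℕ} (h : ∀ r s, r < s → e r s = e' r s) : vd e = vd e' := by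
  unfold vd
  refine Finset.prod_congr rfl fun r _ => Finset.prod_congr rfl fun s hs => ?_
  rw [h r s (Finset.mem_Ioi.mp hs)]

lemma degreeOf_X_sub_X {a b : Fin n} (h : a ≠ b) (r : Fin n) :
    degreeOf r (X a - X b : K n) = (if a = r then 1 else 0) + (if b = r then 1 else 0) := by
  apply le_antisymm
  · refine (degreeOf_sub_le _ _ _).trans ?_
    rw [degreeOf_X, degreeOf_X]
    simp only [eq_comm (a := r)]
    split_ifs <;> simp
  · have key : ∀ c : Fin n, coeff (Finsupp.single c 1) (X a - X b : K n) ≠ 0 →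
        1 ≤ degreeOf c (X a - X b : K n) := by
      intro c hc
      have := monomial_le_degreeOf c (mem_support_iff.mpr hc)
      simpa using this
    rcases eq_or_ne a r with rfl | h1
    · have := key a (by simp [coeff_X, Finsupp.single_left_inj, h.symm])
      simpa [h.symm] using this
    rcases eq_or_ne b r with rfl | h2
    · have := key b (by simp [coeff_X, Finsupp.single_left_inj, h])
      simpa [h1] using this
    simp [h1, h2]

lemma degreeOf_vd {e : Fin n → Fin n → ℕ} (he : ∀ r s, e r s = e s r) (r : Fin n) :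
    degreeOf r (vd e) = ∑ s ∈ univ.erase r, e r s := by
  unfold vd
  rw [degreeOf_prod_eq _ _ (fun a _ => Finset.prod_ne_zero_iff.mpr fun s hs =>
    pow_ne_zero _ (X_sub_X_ne_zero (Finset.mem_Ioi.mp hs).ne))]
  have h1 : ∀ a : Fin n, degreeOf r (∏ s ∈ Ioi a, (X a - X s : K n) ^ e a s) =
      (∑ s ∈ Ioi a, if a = r then e a s else 0) + ∑ s ∈ Ioi a, if s = r then e a s else 0 := by
    intro a
    rw [degreeOf_prod_eq _ _ (fun s hs =>
      pow_ne_zero _ (X_sub_X_ne_zero (Finset.mem_Ioi.mp hs).ne)), ← Finset.sum_add_distrib]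
    refine Finset.sum_congr rfl fun s hs => ?_
    rw [degreeOf_pow_eq _ _ _ (X_sub_X_ne_zero (Finset.mem_Ioi.mp hs).ne),
      degreeOf_X_sub_X (Finset.mem_Ioi.mp hs).ne]
    split_ifs <;> ring
  simp only [h1, Finset.sum_add_distrib]
  have h2 : (∑ a : Fin n, ∑ s ∈ Ioi a, if a = r then e a s else 0) = ∑ s ∈ Ioi r, e r s := by
    rw [Finset.sum_eq_single r] <;> simp +contextual
  have h3 : (∑ a : Fin n, ∑ s ∈ Ioi a, if s = r then e a s else 0) = ∑ s ∈ Iio r, e r s := by
    simp only [Finset.sum_ite_eq', Finset.mem_Ioi]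
    rw [← Finset.sum_filter]
    refine Finset.sum_congr (by ext; simp) fun s _ => he _ _
  rw [h2, h3, ← Finset.sum_union]
  · refine Finset.sum_congr ?_ fun _ _ => rfl
    ext s
    simp only [Finset.mem_union, Finset.mem_Ioi, Finset.mem_Iio, Finset.mem_erase, Finset.mem_univ,
      and_true]
    constructor
    · rintro (h | h)
      · exact h.ne'
      · exact h.ne
    · intro h
      rcases lt_or_gt_of_ne h with h | h
      · exact Or.inr h
      · exact Or.inl h
  · rw [Finset.disjoint_left]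
    intro s h1 h2
    simp only [Finset.mem_Ioi, Finset.mem_Iio] at h1 h2
    exact lt_asymm h1 h2

/-- Block Vandermonde product. -/
noncomputable def vdm (μ : Fin n → ℕ) : K n := vd (fun r s => if μ r = μ s then 1 else 0)

lemma vdm_ne_zero (μ : Fin n → ℕ) : vdm μ ≠ 0 := vd_ne_zero _

lemma rename_vdm {μ : Fin n → ℕ} {σ : Perm (Fin n)} (hσ : σ ∈ stab μ) :
    rename σ (vdm μ) = sg σ • vdm μ := by
  rw [mem_stab] at hσ
  let f : Fin n → Fin n → K n := fun r s =>
    if μ r = μ s then X r - X s else if μ r < μ s then 1 else -1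
  let u : ℂ := ∏ r, ∏ s ∈ Ioi r, (if μ r = μ s then 1 else if μ r < μ s then 1 else -1)
  have hu : u ≠ 0 := by
    refine Finset.prod_ne_zero_iff.mpr fun r _ => Finset.prod_ne_zero_iff.mpr fun s _ => ?_
    split_ifs <;> simp
  have hf : ∀ i j, f i j = -f j i := by
    intro i j
    simp only [f]
    rcases lt_trichotomy (μ i) (μ j) with h | h | h
    · simp [h, h.ne, h.ne', lt_asymm h]
    · simp [h]
    · simp [h, h.ne, h.ne', lt_asymm h]
  have h1 : ∏ r, ∏ s ∈ Ioi r, f r s = u • vdm μ := by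
    simp only [vdm, vd, u, smul_eq_C_mul, map_prod, ← Finset.prod_mul_distrib]
    refine Finset.prod_congr rfl fun r _ => Finset.prod_congr rfl fun s _ => ?_
    simp only [f]
    split_ifs <;> simp
  have h2 := σ.prod_Ioi_comp_eq_sign_mul_prod hf
  have h3 : ∏ r, ∏ s ∈ Ioi r, f (σ r) (σ s) = rename σ (∏ r, ∏ s ∈ Ioi r, f r s) := by
    simp only [map_prod]
    refine Finset.prod_congr rfl fun r _ => Finset.prod_congr rfl fun s _ => ?_
    simp only [f, hσ]
    split_ifs <;> simp
  rw [h3, h1, map_smul] at h2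
  apply smul_right_injective _ hu
  simp only
  rw [h2, smul_comm u, smul_eq_C_mul (u • vdm μ)]
  simp [sg]

lemma vdm_dvd_of_alt {μ : Fin n → ℕ} {f : K n} (hf : ∀ σ ∈ stab μ, rename σ f = sg σ • f) :
    vdm μ ∣ f := by
  apply vd_dvd
  intro r s hrs
  split_ifs with h
  · rw [pow_one]
    apply X_sub_X_dvd_of_alt
    rw [hf _ (swap_mem_stab h), sg_swap hrs.ne, neg_one_smul]
  · simp

lemma degreeOf_vdm (μ : Fin n → ℕ) (r : Fin n) :
    degreeOf r (vdm μ) = ((univ.erase r).filter (fun s => μ s = μ r)).card := by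
  unfold vdm
  rw [degreeOf_vd (fun r s => by simp [eq_comm]), Finset.card_filter]
  simp [eq_comm]

/-- Cancelling a semi-invariant nonzero factor. -/
lemma inv_of_mul {σ : Perm (Fin n)} {d h : K n} {c : ℂ} (hc : c ≠ 0) (hd0 : d ≠ 0)
    (hd : rename σ d = c • d) (hdh : rename σ (d * h) = c • (d * h)) : rename σ h = h := by
  rw [map_mul, hd, smul_mul_assoc] at hdh
  exact mul_left_cancel₀ hd0 (smul_right_injective _ hc hdh)

end Pool.Agent.Lib.MP_ef3722_al
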