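import Pool.Agent.Lib.MP_ef3722_al.Frame

set_option autoImplicit false

open MvPolynomial Finset Equiv

namespace Pool.Agent.Lib.MP_ef3722_al

variable {n : ℕ}

/-- The ideal of the diagonal where the points `r` and `s` agree. -/
noncomputable def DD (r s : Fin n) : Ideal (RR n) := Ideal.span {X r - X s, C (X r - X s)}

lemma sub_act_swap_mem (r s : Fin n) (F : RR n) : F - act (swap r s) F ∈ DD r s := by
  have hx : (X r - X s : RR n) ∈ DD r s := Ideal.subset_span (by simp)
  have hy : (C (X r - X s) : RR n) ∈ DD r s := Ideal.subset_span (by simp)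
  induction F using MvPolynomial.induction_on with
  | C a =>
    rw [act_C, ← map_sub]
    have : (X r - X s : K n) ∣ a - rename (swap r s) a := by
      apply X_sub_X_dvd_of_alt
      rw [map_sub, ← rename_perm_mul, swap_mul_self]
      simp
    obtain ⟨g, hg⟩ := this
    rw [hg, map_mul]
    exact Ideal.mul_mem_right _ _ hy
  | add p q hp hq =>
    have := Ideal.add_mem _ hp hq
    convert this using 1
    rw [map_add]; ring
  | mul_X p k hp =>
    have h1 : (X k - X (swap r s k) : RR n) ∈ DD r s := by
      rcases eq_or_ne k r with rfl | h1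
      · simpa using hx
      rcases eq_or_ne k s with rfl | h2
      · have := (DD r k).neg_mem hx
        simpa using this
      simp [swap_apply_of_ne_of_ne h1 h2]
    have := Ideal.add_mem _ (Ideal.mul_mem_right (X k) _ hp)
      (Ideal.mul_mem_left _ (act (swap r s) p) h1)
    convert this using 1
    rw [map_mul, act_X]; ring

lemma Alt_mem_DD {r s : Fin n} (h : r ≠ s) (F : RR n) : Alt F ∈ DD r s := by
  have h1 := sub_act_swap_mem r s (Alt F)
  rw [act_Alt, sg_swap h, neg_one_smul, sub_neg_eq_add] at h1
  have h2 := ((DD r s).restrictScalars ℂ).smul_mem (2⁻¹ : ℂ) h1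
  rw [← two_smul ℂ, smul_smul, inv_mul_cancel₀ two_ne_zero, one_smul] at h2
  exact h2

lemma pderiv_mem_pow (I : Ideal (RR n)) (r : Fin n) (k : ℕ) {F : RR n} (hF : F ∈ I ^ (k + 1)) :
    pderiv r F ∈ I ^ k := by
  induction k generalizing F with
  | zero => simp
  | succ k ih =>
    rw [pow_succ] at hF
    refine Submodule.mul_induction_on hF (fun a ha b hb => ?_) (fun a b ha hb => ?_)
    · rw [Derivation.leibniz, smul_eq_mul, smul_eq_mul]
      refine Ideal.add_mem _ (Ideal.mul_mem_right _ _ ha) ?_
      rw [pow_succ']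
      exact Ideal.mul_mem_mul hb (ih ha)
    · rw [map_add]
      exact Ideal.add_mem _ ha hb

lemma coeff_euler (r : Fin n) (F : RR n) (μ : Fin n →₀ ℕ) :
    coeff μ (X r * pderiv r F) = (μ r : ℂ) • coeff μ F := by
  induction F using MvPolynomial.induction_on' with
  | add p q hp hq => rw [map_add, mul_add, coeff_add, hp, hq, coeff_add, smul_add]
  | monomial u c =>
    rw [X_mul_pderiv_monomial, coeff_smul, coeff_monomial]
    split_ifs with h
    · rw [h, Nat.cast_smul_eq_nsmul]
    · simp

lemma exists_euler (I : Ideal (RR n)) (r : Fin n) (m : ℕ) {F : RR n} (hF : F ∈ I ^ m)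
    (L : Finset ℕ) : ∃ F' ∈ I ^ (m - L.card),
      ∀ μ, coeff μ F' = (∏ t ∈ L, ((μ r : ℂ) - t)) • coeff μ F := by
  induction L using Finset.induction_on with
  | empty => exact ⟨F, by simpa using hF, by simp⟩
  | insert t L ht ih =>
    obtain ⟨F', h1, h2⟩ := ih
    refine ⟨X r * pderiv r F' - (t : ℂ) • F', ?_, fun μ => ?_⟩
    · rw [Finset.card_insert_of_notMem ht]
      rcases Nat.eq_zero_or_pos (m - L.card) with h | h
      · rw [show m - (L.card + 1) = 0 by omega]; simp
      · have h3 : m - L.card = m - (L.card + 1) + 1 := by omega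
        rw [h3] at h1
        refine Ideal.sub_mem _ (Ideal.mul_mem_left _ _ (pderiv_mem_pow I r _ h1)) ?_
        exact ((I ^ _).restrictScalars ℂ).smul_mem _ (Ideal.pow_le_pow_right (Nat.le_succ _) h1)
    · rw [coeff_sub, coeff_euler, coeff_smul, h2, Finset.prod_insert ht, ← sub_smul, smul_smul]

lemma mapDomain_update_apply (r s : Fin n) (hrs : r ≠ s) (u : Fin n →₀ ℕ) (k : Fin n) :
    (u.mapDomain (Function.update id r s)) k =
      if k = r then 0 else if k = s then u r + u s else u k := by
  have h1 : (u.mapDomain (Function.update id r s)) k =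
      ∑ a, if Function.update id r s a = k then u a else 0 := by
    rw [Finsupp.mapDomain, Finsupp.sum_fintype _ _ (by simp), Finsupp.finsetSum_apply]
    simp only [Finsupp.single_apply]
  rw [h1, ← Finset.add_sum_erase _ _ (Finset.mem_univ r), Function.update_self,
    Finset.sum_congr rfl (g := fun a => if a = k then u a else 0)]
  · rw [Finset.sum_ite_eq']
    rcases eq_or_ne k r with rfl | h1
    · simp [hrs.symm]
    rcases eq_or_ne k s with rfl | h2
    · simp [hrs.symm]
    simp [h1, h2, h2.symm]
  · intro a ha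
    rw [Function.update_of_ne (Finset.ne_of_mem_erase ha), id]

lemma dvd_coeff_rename {r s : Fin n} {k : ℕ} {F : RR n} (hF : F ∈ DD r s ^ k)
    (ν : Fin n →₀ ℕ) :
    (X r - X s : K n) ^ k ∣ coeff ν (rename (Function.update id r s) F) := by
  have h1 : (DD r s).map (rename (Function.update id r s) : RR n →ₐ[K n] RR n) ≤
      Ideal.span {C (X r - X s)} := by
    rw [DD, Ideal.map_span, Ideal.span_le]
    rintro _ ⟨z, (rfl | rfl), rfl⟩
    · rcases eq_or_ne s r with rfl | h
      · simp
      · simp [Function.update_of_ne h]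
    · rw [rename_C]
      exact Ideal.subset_span rfl
  have h2 := Ideal.mem_map_of_mem (rename (Function.update id r s) : RR n →ₐ[K n] RR n) hF
  rw [Ideal.map_pow] at h2
  have h3 := Ideal.pow_right_mono h1 k h2
  rw [Ideal.span_singleton_pow, Ideal.mem_span_singleton, ← map_pow, C_dvd_iff_dvd_coeff] at h3
  exact h3 ν

section
variable {m : ℕ} {F : RR n} {lam : Fin n →₀ ℕ}

lemma mem_support_of_sym (hsym : ∀ σ, act σ F = sg σ ^ m • F) {ν : Fin n →₀ ℕ}
    (hν : ν ∈ F.support) (σ : Perm (Fin n)) : ν.mapDomain σ ∈ F.support := by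
  have h1 := coeff_act σ ν F
  rw [hsym, coeff_smul] at h1
  rw [mem_support_iff] at hν ⊢
  intro h
  rw [h, smul_zero] at h1
  exact hν (rename_injective _ σ.injective (h1.symm.trans (map_zero _).symm))

lemma le_of_line (hmin : ∀ ν ∈ F.support, toLex lam ≤ toLex ν) {r s : Fin n} (hrs : r < s)
    {ν : Fin n →₀ ℕ} (hν : ν ∈ F.support) (h : ∀ k, k ≠ r → k ≠ s → ν k = lam k) :
    lam r ≤ ν r := by
  by_contra h'
  refine absurd (hmin ν hν) (not_le.mpr (Finsupp.Lex.lt_iff.mpr ⟨r, fun j hj => ?_, ?_⟩))
  · exact h j hj.ne (hj.trans hrs).ne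
  · exact not_le.mp h'

lemma min_monotone (hsym : ∀ σ, act σ F = sg σ ^ m • F) (hl : lam ∈ F.support)
    (hmin : ∀ ν ∈ F.support, toLex lam ≤ toLex ν) : Monotone lam := by
  refine monotone_iff_forall_lt.mpr fun r s hrs => ?_
  have := le_of_line hmin hrs (mem_support_of_sym hsym hl (swap r s)) (fun k h1 h2 => by
    rw [mapDomain_perm_apply, swap_inv, swap_apply_of_ne_of_ne h1 h2])
  rwa [mapDomain_perm_apply, swap_inv, swap_apply_left] at this

lemma min_coeff_sym (hsym : ∀ σ, act σ F = sg σ ^ m • F) {σ : Perm (Fin n)} (hσ : σ ∈ stab lam) :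
    rename σ (coeff lam F) = sg σ ^ m • coeff lam F := by
  have h1 := coeff_act σ lam F
  have h2 : lam.mapDomain σ = lam := by
    ext r
    rw [mapDomain_perm_apply]
    exact mem_stab.mp (inv_mem_stab hσ) r
  rw [hsym, coeff_smul, h2] at h1
  exact h1.symm

lemma min_coeff_dvd (hsym : ∀ σ, act σ F = sg σ ^ m • F)
    (hmin : ∀ ν ∈ F.support, toLex lam ≤ toLex ν) {r s : Fin n} (hrs : r < s)
    (hD : F ∈ DD r s ^ m) : (X r - X s : K n) ^ (m - (lam s - lam r)) ∣ coeff lam F := by
  obtain ⟨F', h1, h2⟩ := exists_euler _ r m hD (Finset.Ioc (lam r) (lam s))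
  rw [Nat.card_Ioc] at h1
  have h3 := dvd_coeff_rename h1 (lam.mapDomain (Function.update id r s))
  have h4 : coeff (lam.mapDomain (Function.update id r s)) (rename (Function.update id r s) F') =
      coeff lam F' := by
    have : F' = monomial lam (coeff lam F') + (F' - monomial lam (coeff lam F')) := by ring
    conv_lhs => rw [this, map_add, coeff_add, rename_monomial, coeff_monomial, if_pos rfl]
    rw [coeff_rename_eq_zero, add_zero]
    intro u hu
    rw [coeff_sub, coeff_monomial]
    split_ifs with h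
    · rw [h, sub_self]
    rw [sub_zero, h2]
    by_contra hne
    have hu0 : u ∈ F.support := mem_support_iff.mpr (right_ne_zero_of_smul hne)
    have hk : ∀ k, k ≠ r → k ≠ s → u k = lam k := by
      intro k a b
      have := DFunLike.congr_fun hu k
      simpa only [mapDomain_update_apply r s hrs.ne, a, b, if_false] using this
    have hs : u r + u s = lam r + lam s := by
      have := DFunLike.congr_fun hu s
      simpa only [mapDomain_update_apply r s hrs.ne, hrs.ne', if_false, if_true] using this
    have h5 := le_of_line hmin hrs hu0 hk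
    have h6 := le_of_line hmin hrs (mem_support_of_sym hsym hu0 (swap r s)) (fun k a b => by
      rw [mapDomain_perm_apply, swap_inv, swap_apply_of_ne_of_ne a b, hk k a b])
    rw [mapDomain_perm_apply, swap_inv, swap_apply_left] at h6
    have h7 : u r ≠ lam r := by
      intro e
      apply h
      ext k
      rcases eq_or_ne k r with rfl | a
      · exact e.symm
      rcases eq_or_ne k s with rfl | b
      · omega
      exact (hk k a b).symm
    apply left_ne_zero_of_smul hne
    exact Finset.prod_eq_zero (i := u r) (Finset.mem_Ioc.mpr ⟨by omega, by omega⟩) (sub_self _)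
  rw [h4, h2] at h3
  have h5 : (∏ t ∈ Finset.Ioc (lam r) (lam s), ((lam r : ℂ) - t)) ≠ 0 := by
    refine Finset.prod_ne_zero_iff.mpr fun t ht => sub_ne_zero.mpr fun e => ?_
    have := (Finset.mem_Ioc.mp ht).1
    have e' : lam r = t := by exact_mod_cast e
    omega
  have h6 := dvd_smul_of_dvd (∏ t ∈ Finset.Ioc (lam r) (lam s), ((lam r : ℂ) - t))⁻¹ h3
  rwa [smul_smul, inv_mul_cancel₀ h5, one_smul] at h6

end

end Pool.Agent.Lib.MP_ef3722_al
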