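import Pool.Agent.Lib.MP_ef3722_al.Path

set_option autoImplicit false

open MvPolynomial Finset Equiv

namespace Pool.Agent.Lib.MP_ef3722_al

/-- The polynomial ring of the statement. -/
abbrev R (n : ℕ) := MvPolynomial (Fin 2 × Fin n) ℂ

variable {n m : ℕ}

/-- From the iterated ring to the ring of the statement. -/
noncomputable def Psi (n : ℕ) : RR n →ₐ[ℂ] R n :=
  aevalTower (aeval fun r => X (1, r)) (fun r => X (0, r))

/-- From the ring of the statement to the iterated ring. -/
noncomputable def Phi (n : ℕ) : R n →ₐ[ℂ] RR n :=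
  aeval fun p => if p.1 = 0 then X p.2 else C (X p.2)

lemma Psi_Phi (f : R n) : Psi n (Phi n f) = f := by
  have : (Psi n).comp (Phi n) = AlgHom.id ℂ _ := by
    apply MvPolynomial.algHom_ext
    rintro ⟨i, r⟩
    fin_cases i <;> simp [Psi, Phi]
  exact DFunLike.congr_fun this f

lemma Psi_act (σ : Perm (Fin n)) (F : RR n) :
    Psi n (act σ F) = rename (fun p : Fin 2 × Fin n => (p.1, σ p.2)) (Psi n F) := by
  induction F using MvPolynomial.induction_on with
  | C a =>
    rw [act_C]
    simp only [Psi, aevalTower_C]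
    induction a using MvPolynomial.induction_on with
    | C c => simp
    | add p q hp hq => simp only [map_add, hp, hq]
    | mul_X p k hp => simp only [map_mul, hp, rename_X, aeval_X]
  | add p q hp hq => simp only [map_add, hp, hq]
  | mul_X p k hp =>
    simp only [map_mul, hp, act_X]
    simp only [Psi, aevalTower_X, rename_X]

lemma Psi_monomial (a b : Fin n →₀ ℕ) :
    Psi n (monomial a (monomial b 1)) = ∏ s, X (0, s) ^ a s * X (1, s) ^ b s := by
  rw [monomial_eq, monomial_eq, Finsupp.prod_fintype _ _ (by simp),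
    Finsupp.prod_fintype _ _ (by simp), Finset.prod_mul_distrib, mul_comm]
  simp [Psi]

/-- The determinants of the statement. -/
noncomputable def dt (a b : Fin n → ℕ) : R n :=
  Matrix.det (Matrix.of fun r s : Fin n => (X (0, r) : R n) ^ a s * (X (1, r) : R n) ^ b s)

lemma Psi_altm (a b : Fin n →₀ ℕ) : Psi n (altm a b) = dt a b := by
  rw [altm, Alt_apply, map_sum, dt, Matrix.det_apply']
  refine Finset.sum_congr rfl fun σ _ => ?_
  rw [map_smul, Psi_act, Psi_monomial, smul_eq_C_mul]
  simp [sg]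

lemma dt_homog (a b : Fin n → ℕ) : (dt a b).IsHomogeneous (∑ s, (a s + b s)) := by
  rw [dt, Matrix.det_apply']
  refine IsHomogeneous.sum _ _ _ fun σ _ => ?_
  rw [← map_intCast (C : ℂ →+* R n)]
  refine IsHomogeneous.C_mul ?_ _
  refine IsHomogeneous.prod _ _ _ fun s _ => ?_
  exact (isHomogeneous_X_pow _ _).mul (isHomogeneous_X_pow _ _)

lemma psum_homog (a b : ℕ) : (Psi n (psum n a b)).IsHomogeneous (a + b) := by
  rw [psum, map_sum]
  refine IsHomogeneous.sum _ _ _ fun l _ => ?_
  have : Psi n (monomial (Finsupp.single l a) (X l ^ b)) = X (0, l) ^ a * X (1, l) ^ b := by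
    rw [← C_mul_X_pow_eq_monomial, mul_comm]
    simp [Psi]
  rw [this]
  exact (isHomogeneous_X_pow _ _).mul (isHomogeneous_X_pow _ _)

lemma prod_dt_homog (c d : ℕ → Fin n →₀ ℕ) : (∏ j ∈ range m, dt (c j) (d j)).IsHomogeneous
    (∑ j ∈ range m, ∑ s, (c j s + d j s)) :=
  IsHomogeneous.prod _ _ _ fun _ _ => dt_homog _ _

/-- The ideal generated by the products of determinants attached to the paths. -/
noncomputable def JJ (n m : ℕ) : Ideal (R n) :=
  Ideal.span {F : R n | ∃ h : ℕ → ℕ,
    (∀ i i' : ℕ, i ≤ i' → i' < m * n → h i ≤ h i') ∧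
    (∀ i : ℕ, i < m * n → i + 1 ≤ m * h i ∧ h i ≤ n) ∧
    F = ∏ j : Fin m, dt (fa n m h j.val) (fb n m h j.val)}

lemma gen_mem_JJ {γ : ℕ → ℕ} (h : Valid n m γ) :
    ∏ j ∈ range m, dt (ga n m γ j) (gb n m γ j) ∈ JJ n m := by
  have h1 : ∏ j : Fin m, dt (fa n m (ht n m γ) j.val) (fb n m (ht n m γ) j.val) ∈ JJ n m :=
    Ideal.subset_span ⟨ht n m γ, fun _ _ a _ => ht_mono a, fun i hi => ⟨h.lt_ht hi, ht_le i⟩, rfl⟩
  choose σ h2 h3 using fun j : Fin m => exists_perm h j.2
  have h4 : ∀ j : Fin m, dt (ga n m γ j) (gb n m γ j) =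
      C (sg (σ j)) * dt (fa n m (ht n m γ) j.val) (fb n m (ht n m γ) j.val) := by
    intro j
    have := congrArg (Psi n) (altm_mapDomain (σ j) (ga n m γ j) (gb n m γ j))
    rw [← h2, ← h3, map_smul, Psi_altm, Psi_altm] at this
    change dt (fa n m (ht n m γ) j.val) (fb n m (ht n m γ) j.val) = _ at this
    rw [this, ← smul_eq_C_mul, smul_smul, sg_mul_self, one_smul]
  rw [Finset.prod_range (fun j => dt (ga n m γ j) (gb n m γ j))]
  simp only [h4, Finset.prod_mul_distrib]
  exact Ideal.mul_mem_left _ _ h1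

lemma prod_dt_mem_JJ (hm : 0 < m) : ∀ (N : ℕ) (c d : ℕ → Fin n →₀ ℕ),
    ∑ j ∈ range m, ∑ s, (c j s + d j s) = N → ∏ j ∈ range m, dt (c j) (d j) ∈ JJ n m := by
  intro N
  induction N using Nat.strong_induction_on with
  | _ N ih =>
  intro c d hN
  have key : ∀ z ∈ NN n m, homogeneousComponent N (Psi n z) ∈ JJ n m := by
    intro z hz
    induction hz using Submodule.span_induction with
    | zero => simp
    | add x y _ _ hx hy => rw [map_add, map_add]; exact Ideal.add_mem _ hx hy
    | smul t x _ hx =>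
      rw [map_smul, map_smul]
      exact ((JJ n m).restrictScalars ℂ).smul_mem t hx
    | mem z hz =>
      rcases hz with ⟨γ, hγ, rfl⟩ | ⟨a, b, c', d', hab, rfl⟩
      · simp only [map_prod, Psi_altm]
        rw [homogeneousComponent_of_mem (prod_dt_homog _ _)]
        split_ifs
        · exact gen_mem_JJ hγ
        · exact Ideal.zero_mem _
      · simp only [map_mul, map_prod, Psi_altm]
        rw [homogeneousComponent_of_mem ((psum_homog a b).mul (prod_dt_homog _ _))]
        split_ifs with h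
        · exact Ideal.mul_mem_left _ _ (ih _ (by omega) c' d' rfl)
        · exact Ideal.zero_mem _
  have h1 := key _ (GG_le_NN hm (Submodule.subset_span ⟨c, d, rfl⟩))
  simp only [map_prod, Psi_altm] at h1
  rwa [homogeneousComponent_of_mem (prod_dt_homog _ _), if_pos hN.symm] at h1

lemma Psi_mem_JJ (hm : 0 < m) {z : RR n} (hz : z ∈ GG n m) : Psi n z ∈ JJ n m := by
  induction hz using Submodule.span_induction with
  | zero => simp
  | add x y _ _ hx hy => rw [map_add]; exact Ideal.add_mem _ hx hy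
  | smul t x _ hx =>
    rw [map_smul]
    exact ((JJ n m).restrictScalars ℂ).smul_mem t hx
  | mem z hz =>
    obtain ⟨c, d, rfl⟩ := hz
    simp only [map_prod, Psi_altm]
    exact prod_dt_mem_JJ hm _ c d rfl

/-- The ideal generated by the alternating polynomials. -/
noncomputable def II (n : ℕ) : Ideal (R n) :=
  Ideal.span {f : R n | ∀ σ : Equiv.Perm (Fin n),
    rename (fun p : Fin 2 × Fin n => (p.1, σ p.2)) f = C (((Equiv.Perm.sign σ : ℤ) : ℂ)) * f}

lemma Psi_Alt_mem_II (u : RR n) : Psi n (Alt u) ∈ II n :=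
  Ideal.subset_span fun σ => by
    rw [← Psi_act, act_Alt, map_smul, smul_eq_C_mul]
    rfl

lemma II_le : II n ≤ Ideal.span {f | ∃ u, f = Psi n (Alt u)} := by
  refine Ideal.span_mono fun f hf => ⟨((Fintype.card (Perm (Fin n)) : ℂ))⁻¹ • Phi n f, ?_⟩
  have h0 : (Fintype.card (Perm (Fin n)) : ℂ) ≠ 0 := Nat.cast_ne_zero.mpr Fintype.card_ne_zero
  rw [map_smul, map_smul, Alt_apply, map_sum, Finset.sum_congr rfl (g := fun _ => f),
    Finset.sum_const, Finset.card_univ, ← Nat.cast_smul_eq_nsmul ℂ, smul_smul,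
    inv_mul_cancel₀ h0, one_smul]
  intro σ _
  rw [map_smul, Psi_act, Psi_Phi, hf σ, ← smul_eq_C_mul, smul_smul]
  change (sg σ * sg σ) • f = f
  rw [sg_mul_self, one_smul]

lemma II_pow_le (m : ℕ) :
    II n ^ m ≤ Ideal.span {f | ∃ u : ℕ → RR n, f = Psi n (∏ j ∈ range m, Alt (u j))} := by
  induction m with
  | zero =>
    rw [pow_zero, Ideal.one_eq_top, top_le_iff, Ideal.eq_top_iff_one]
    exact Ideal.subset_span ⟨0, by simp⟩
  | succ m ih =>
    rw [pow_succ]
    refine (Ideal.mul_mono ih II_le).trans ?_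
    rw [Ideal.span_mul_span']
    refine Ideal.span_mono ?_
    rintro _ ⟨_, ⟨u, rfl⟩, _, ⟨v, rfl⟩, rfl⟩
    refine ⟨Function.update u m v, ?_⟩
    simp only [Finset.prod_range_succ, Function.update_self, map_mul]
    congr 2
    exact Finset.prod_congr rfl fun j hj => by
      rw [Function.update_of_ne (Finset.mem_range.mp hj).ne]

theorem JJ_eq (hm : 0 < m) : JJ n m = II n ^ m := by
  apply le_antisymm
  · refine Ideal.span_le.mpr ?_
    rintro _ ⟨h, _, _, rfl⟩
    have := Ideal.prod_mem_prod (s := (univ : Finset (Fin m))) (I := fun _ => II n)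
      (x := fun j => dt (fa n m h j.val) (fb n m h j.val)) (fun j _ => by
        have := Psi_Alt_mem_II (monomial (fs (fa n m h j.val)) (monomial (fs (fb n m h j.val)) 1))
        rwa [← altm, Psi_altm] at this)
    rwa [Finset.prod_const, Finset.card_univ, Fintype.card_fin] at this
  · refine (II_pow_le m).trans (Ideal.span_le.mpr ?_)
    rintro _ ⟨u, rfl⟩
    exact Psi_mem_JJ hm (prod_Alt_mem_GG m u)

end Pool.Agent.Lib.MP_ef3722_al
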