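import Pool.Agent.Lib.MP_ef3722_al.Top

set_option autoImplicit false

open MvPolynomial Finset Equiv

namespace Pool.Agent.Lib.MP_ef3722_al

/-- Polynomials in the `x_r` with coefficients polynomials in the `y_r`. -/
abbrev RR (n : ℕ) := MvPolynomial (Fin n) (K n)

variable {n : ℕ}

/-- The diagonal action. -/
noncomputable def act (σ : Perm (Fin n)) : RR n →ₐ[ℂ] RR n :=
  ((rename σ : RR n →ₐ[K n] RR n).restrictScalars ℂ).comp
    (mapAlgHom (rename σ : K n →ₐ[ℂ] K n))

lemma act_monomial (σ : Perm (Fin n)) (μ : Fin n →₀ ℕ) (c : K n) :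
    act σ (monomial μ c) = monomial (μ.mapDomain σ) (rename σ c) := by
  simp [act, rename_monomial]

lemma act_X (σ : Perm (Fin n)) (r : Fin n) : act σ (X r) = X (σ r) := by simp [act]

lemma act_C (σ : Perm (Fin n)) (c : K n) : act σ (C c) = C (rename σ c) := by simp [act]

lemma act_mul_perm (σ τ : Perm (Fin n)) (F : RR n) : act (σ * τ) F = act σ (act τ F) := by
  induction F using MvPolynomial.induction_on' with
  | add p q hp hq => simp only [map_add, hp, hq]
  | monomial u c =>
    rw [act_monomial, act_monomial, act_monomial, rename_perm_mul, ← Finsupp.mapDomain_comp]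
    rfl

lemma coeff_act (σ : Perm (Fin n)) (μ : Fin n →₀ ℕ) (F : RR n) :
    coeff (μ.mapDomain σ) (act σ F) = rename σ (coeff μ F) := by
  simp [act, coeff_rename_mapDomain _ σ.injective, coeff_map]

/-- The antisymmetriser. -/
noncomputable def Alt : RR n →ₗ[ℂ] RR n := ∑ σ : Perm (Fin n), sg σ • (act σ).toLinearMap

lemma Alt_apply (F : RR n) : Alt F = ∑ σ : Perm (Fin n), sg σ • act σ F := by
  simp [Alt, LinearMap.sum_apply]

lemma act_Alt (τ : Perm (Fin n)) (F : RR n) : act τ (Alt F) = sg τ • Alt F := by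
  rw [Alt_apply, map_sum, Finset.smul_sum,
    ← Equiv.sum_comp (Equiv.mulLeft τ) (fun σ => sg τ • sg σ • act σ F)]
  refine Finset.sum_congr rfl fun σ _ => ?_
  rw [map_smul, Equiv.coe_mulLeft, act_mul_perm, sg_mul, smul_smul, ← mul_assoc, sg_mul_self,
    one_mul]

lemma Alt_act (τ : Perm (Fin n)) (F : RR n) : Alt (act τ F) = sg τ • Alt F := by
  rw [Alt_apply, Alt_apply, Finset.smul_sum,
    ← Equiv.sum_comp (Equiv.mulRight τ) (fun σ => sg τ • sg σ • act σ F)]
  refine Finset.sum_congr rfl fun σ _ => ?_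
  rw [Equiv.coe_mulRight, act_mul_perm, sg_mul, smul_smul, mul_comm (sg σ), ← mul_assoc,
    sg_mul_self, one_mul]

lemma Alt_mul_of_inv {p : RR n} (hp : ∀ σ, act σ p = p) (F : RR n) : Alt (p * F) = p * Alt F := by
  rw [Alt_apply, Alt_apply, Finset.mul_sum]
  refine Finset.sum_congr rfl fun σ _ => ?_
  rw [map_mul, hp σ, mul_smul_comm]

/-- Polarised power sums. -/
noncomputable def psum (n a b : ℕ) : RR n := ∑ l, monomial (Finsupp.single l a) (X l ^ b)

lemma act_psum (σ : Perm (Fin n)) (a b : ℕ) : act σ (psum n a b) = psum n a b := by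
  rw [psum, map_sum, ← Equiv.sum_comp σ (fun l => monomial (Finsupp.single l a) (X l ^ b))]
  refine Finset.sum_congr rfl fun l _ => ?_
  rw [act_monomial, Finsupp.mapDomain_single, map_pow, rename_X]

/-- `F` has lexicographically least `x`-exponent at least `μ`, with coefficient `c` there. -/
def Lead (μ : Fin n →₀ ℕ) (F : RR n) (c : K n) : Prop :=
  (∀ ν ∈ F.support, toLex μ ≤ toLex ν ∧ ∑ r, ν r = ∑ r, μ r) ∧ coeff μ F = c

lemma Lead.zero (μ : Fin n →₀ ℕ) : Lead μ 0 0 := ⟨by simp, by simp⟩

lemma Lead.add {μ : Fin n →₀ ℕ} {F G : RR n} {c d : K n} (h1 : Lead μ F c) (h2 : Lead μ G d) :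
    Lead μ (F + G) (c + d) := by
  refine ⟨fun ν hν => ?_, by rw [coeff_add, h1.2, h2.2]⟩
  rcases Finset.mem_union.mp (support_add hν) with h | h
  · exact h1.1 ν h
  · exact h2.1 ν h

lemma Lead.smul {μ : Fin n →₀ ℕ} {F : RR n} {c : K n} (h1 : Lead μ F c) (t : ℂ) :
    Lead μ (t • F) (t • c) :=
  ⟨fun ν hν => h1.1 ν (support_smul hν), by rw [coeff_smul, h1.2]⟩

lemma Lead.sum {ι : Type*} {μ : Fin n →₀ ℕ} (s : Finset ι) {F : ι → RR n} {c : ι → K n}
    (h : ∀ i ∈ s, Lead μ (F i) (c i)) : Lead μ (∑ i ∈ s, F i) (∑ i ∈ s, c i) := by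
  classical
  induction s using Finset.induction_on with
  | empty => simpa using Lead.zero μ
  | insert a s ha ih =>
    rw [Finset.sum_insert ha, Finset.sum_insert ha]
    exact (h a (Finset.mem_insert_self _ _)).add (ih fun i hi => h i (Finset.mem_insert_of_mem hi))

lemma Lead.mul {μ ν : Fin n →₀ ℕ} {F G : RR n} {c d : K n} (h1 : Lead μ F c) (h2 : Lead ν G d) :
    Lead (μ + ν) (F * G) (c * d) := by
  constructor
  · intro κ hκ
    obtain ⟨a, ha, b, hb, rfl⟩ := Finset.mem_add.mp (support_mul F G hκ)
    refine ⟨add_le_add (h1.1 a ha).1 (h2.1 b hb).1, ?_⟩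
    simp only [Finsupp.add_apply, Finset.sum_add_distrib, (h1.1 a ha).2, (h2.1 b hb).2]
  · rw [coeff_mul, Finset.sum_eq_single (μ, ν), h1.2, h2.2]
    · rintro ⟨a, b⟩ hab hne
      rw [Finset.HasAntidiagonal.mem_antidiagonal] at hab
      by_contra h0
      have ha := (h1.1 a (mem_support_iff.mpr (left_ne_zero_of_mul h0))).1
      have hb := (h2.1 b (mem_support_iff.mpr (right_ne_zero_of_mul h0))).1
      have hab' : toLex a + toLex b = toLex μ + toLex ν := congrArg toLex hab
      have := (add_eq_add_iff_eq_and_eq ha hb).mp hab'.symm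
      exact hne (Prod.ext (toLex.injective this.1).symm (toLex.injective this.2).symm)
    · intro h
      exact (h (Finset.HasAntidiagonal.mem_antidiagonal.mpr rfl)).elim

lemma Lead.one : Lead (0 : Fin n →₀ ℕ) 1 1 := by
  refine ⟨fun ν hν => ?_, by simp⟩
  have : ν = 0 := by
    by_contra h
    exact mem_support_iff.mp hν (by rw [coeff_one, if_neg (Ne.symm h)])
  simp [this]

lemma Lead.prod {ι : Type*} {μ : ι → Fin n →₀ ℕ} (s : Finset ι) {F : ι → RR n} {c : ι → K n}
    (h : ∀ i ∈ s, Lead (μ i) (F i) (c i)) :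
    Lead (∑ i ∈ s, μ i) (∏ i ∈ s, F i) (∏ i ∈ s, c i) := by
  classical
  induction s using Finset.induction_on with
  | empty => simpa using Lead.one
  | insert a s ha ih =>
    rw [Finset.sum_insert ha, Finset.prod_insert ha, Finset.prod_insert ha]
    exact (h a (Finset.mem_insert_self _ _)).mul (ih fun i hi => h i (Finset.mem_insert_of_mem hi))

/-- Number of entries at most `t`. -/
def cnt (ν : Fin n →₀ ℕ) (t : ℕ) : ℕ := (univ.filter (fun r => ν r ≤ t)).card

lemma cnt_mapDomain (σ : Perm (Fin n)) (ν : Fin n →₀ ℕ) (t : ℕ) :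
    cnt (ν.mapDomain σ) t = cnt ν t := by
  simp only [cnt, Finset.card_filter, mapDomain_perm_apply]
  exact Equiv.sum_comp σ⁻¹ (fun r => if ν r ≤ t then 1 else 0)

lemma sum_mapDomain_perm (σ : Perm (Fin n)) (ν : Fin n →₀ ℕ) :
    ∑ r, (ν.mapDomain σ) r = ∑ r, ν r := by
  simp only [mapDomain_perm_apply]
  exact Equiv.sum_comp σ⁻¹ ν

lemma cnt_of_lex_lt {μ ν : Fin n →₀ ℕ} (hμ : Monotone μ) (h : toLex ν < toLex μ) :
    ∃ t, cnt μ t < cnt ν t ∧ ∀ t' ≤ t, cnt μ t' ≤ cnt ν t' := by
  obtain ⟨p, h1, h2⟩ := Finsupp.Lex.lt_iff.mp h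
  change ∀ j < p, ν j = μ j at h1
  change ν p < μ p at h2
  have hsub : ∀ t' ≤ ν p, univ.filter (fun r => μ r ≤ t') ⊆ univ.filter (fun r => ν r ≤ t') := by
    intro t' ht r hr
    simp only [Finset.mem_filter, Finset.mem_univ, true_and] at hr ⊢
    have : r < p := by
      by_contra h'
      have := hμ (not_lt.mp h')
      omega
    rw [h1 r this]; exact hr
  refine ⟨ν p, Finset.card_lt_card ⟨hsub _ le_rfl, fun h' => ?_⟩,
    fun t' ht => Finset.card_le_card (hsub t' ht)⟩
  have := h' (show p ∈ univ.filter (fun r => ν r ≤ ν p) by simp)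
  simp only [Finset.mem_filter, Finset.mem_univ, true_and] at this
  omega

lemma mem_support_Alt {ν κ : Fin n →₀ ℕ} {c : K n} (h : κ ∈ (Alt (monomial ν c)).support) :
    ∃ σ : Perm (Fin n), κ = ν.mapDomain σ := by
  rw [Alt_apply] at h
  obtain ⟨σ, _, h⟩ := Finset.mem_biUnion.mp (support_sum h)
  rw [act_monomial] at h
  exact ⟨σ, Finset.mem_singleton.mp (support_monomial_subset (support_smul h))⟩

lemma lead_Alt {μ : Fin n →₀ ℕ} (hμ : Monotone μ) (c : K n) :
    Lead μ (Alt (monomial μ c)) (altK μ c) := by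
  constructor
  · intro κ hκ
    obtain ⟨σ, rfl⟩ := mem_support_Alt hκ
    refine ⟨not_lt.mp fun h => ?_, sum_mapDomain_perm σ μ⟩
    obtain ⟨t, h1, _⟩ := cnt_of_lex_lt hμ h
    rw [cnt_mapDomain] at h1
    exact lt_irrefl _ h1
  · rw [Alt_apply, altK_apply, coeff_sum, stab, Finset.sum_filter]
    refine Finset.sum_congr rfl fun σ _ => ?_
    rw [coeff_smul, act_monomial, coeff_monomial]
    have : μ.mapDomain σ = μ ↔ ∀ r, μ (σ r) = μ r := by
      constructor
      · intro h r
        conv_lhs => rw [← h, Finsupp.mapDomain_apply σ.injective]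
      · intro h
        ext r
        rw [mapDomain_perm_apply, ← h (σ⁻¹ r)]
        simp
    simp only [this]
    split_ifs <;> simp

lemma lead_Alt_high {μ ν : Fin n →₀ ℕ} (hμ : Monotone μ) (c : K n) (hd : ∑ r, ν r = ∑ r, μ r)
    {k : ℕ} (h1 : ∀ t ≤ k, cnt ν t ≤ cnt μ t) (h2 : cnt ν k < cnt μ k) :
    Lead μ (Alt (monomial ν c)) 0 := by
  constructor
  · intro κ hκ
    obtain ⟨σ, rfl⟩ := mem_support_Alt hκ
    refine ⟨not_lt.mp fun h => ?_, (sum_mapDomain_perm σ ν).trans hd⟩
    obtain ⟨t, h3, h4⟩ := cnt_of_lex_lt hμ h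
    simp only [cnt_mapDomain] at h3 h4
    rcases le_total t k with h5 | h5
    · exact absurd (h1 t h5) (not_le.mpr h3)
    · exact absurd (h4 k h5) (not_le.mpr h2)
  · by_contra h
    obtain ⟨σ, e⟩ := mem_support_Alt (mem_support_iff.mpr h)
    rw [e, cnt_mapDomain] at h2
    exact lt_irrefl _ h2

/-- The ideal generated by the polarised power sums. -/
noncomputable def PS (n : ℕ) : Ideal (RR n) :=
  Ideal.span {z | ∃ a b, (a ≠ 0 ∨ b ≠ 0) ∧ z = psum n a b}

/-- Power sums times alternating polynomials. -/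
noncomputable def P1 (n : ℕ) : Submodule ℂ (RR n) :=
  Submodule.span ℂ {z | ∃ a b u, (a ≠ 0 ∨ b ≠ 0) ∧ z = psum n a b * Alt u}

lemma Alt_mem_P1 {z : RR n} (hz : z ∈ PS n) : Alt z ∈ P1 n := by
  suffices ∀ w, Alt (w * z) ∈ P1 n by simpa using this 1
  induction hz using Submodule.span_induction with
  | mem z hz =>
    obtain ⟨a, b, hab, rfl⟩ := hz
    intro w
    rw [mul_comm, Alt_mul_of_inv (fun σ => act_psum σ a b)]
    exact Submodule.subset_span ⟨a, b, w, hab, rfl⟩
  | zero => simp
  | add x y _ _ hx hy =>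
    intro w
    rw [mul_add, map_add]
    exact Submodule.add_mem _ (hx w) (hy w)
  | smul a x _ hx =>
    intro w
    rw [smul_eq_mul, ← mul_assoc]
    exact hx _

lemma trace_mem_PS (j : Fin n) {d : ℕ} (hd : d ≠ 0) (G : K n) :
    ∑ l, monomial (Finsupp.single l d) (rename (Function.update id j l) G) ∈ PS n := by
  induction G using MvPolynomial.induction_on' with
  | add p q hp hq =>
    simp only [map_add, Finset.sum_add_distrib]
    exact Ideal.add_mem _ hp hq
  | monomial β c =>
    have h := Ideal.mul_mem_right (C (monomial (β.erase j) c)) (PS n)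
      (Ideal.subset_span ⟨d, β j, Or.inl hd, rfl⟩ : psum n d (β j) ∈ PS n)
    convert h using 1
    rw [psum, Finset.sum_mul]
    refine Finset.sum_congr rfl fun l _ => ?_
    rw [mul_comm, C_mul_monomial, mul_comm]
    congr 1
    conv_lhs => rw [← Finsupp.single_add_erase j β, ← one_mul c, ← monomial_mul, map_mul,
      ← X_pow_eq_monomial, map_pow, rename_X, Function.update_self]
    congr 1
    rw [rename_monomial]
    congr 2
    conv_rhs => rw [← Finsupp.mapDomain_id (v := β.erase j)]
    apply Finsupp.mapDomain_congr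
    intro x hx
    have : x ≠ j := by
      rintro rfl
      simp at hx
    exact Function.update_of_ne this _ _

/-- The polynomial `∏ (z - y_l)` over the block of level `c`, evaluated at `z = y_j`. -/
noncomputable def chi (μ : Fin n → ℕ) (c : ℕ) (j : Fin n) : K n :=
  ∏ l ∈ univ.filter (fun l => μ l = c), (X j - X l)

/-- The trace relation. -/
noncomputable def rho (μ : Fin n → ℕ) (c b : ℕ) : K n :=
  ∑ j ∈ univ.filter (fun j => c < μ j), X j ^ b * chi μ c j

lemma rename_update_chi {μ : Fin n → ℕ} {c : ℕ} {j : Fin n} (hj : c < μ j) (l : Fin n) :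
    rename (Function.update id j l) (chi μ c j) = chi μ c l := by
  simp only [chi, map_prod, map_sub, rename_X, Function.update_self]
  refine Finset.prod_congr rfl fun s hs => ?_
  have : s ≠ j := by
    rintro rfl
    simp at hs
    omega
  rw [Function.update_of_ne this, id]

theorem exists_rho {μ : Fin n →₀ ℕ} (hμ : Monotone μ) (c b : ℕ) (a : K n) :
    ∃ F ∈ P1 n, Lead μ F (altK μ (rho μ c b * a)) := by
  let H := univ.filter (fun j => c < μ j)
  let ν : Fin n → Fin n → Fin n →₀ ℕ := fun j l =>
    μ - Finsupp.single j (μ j - c) + Finsupp.single l (μ j - c)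
  let G : Fin n → K n := fun j => X j ^ b * chi μ c j * a
  let t : Fin n → Fin n → RR n := fun j l =>
    Alt (monomial (ν j l) (rename (Function.update id j l) (G j)))
  have hν : ∀ j l r, ν j l r = μ r - (if j = r then μ j - c else 0) +
      (if l = r then μ j - c else 0) := by
    intro j l r
    simp only [ν, Finsupp.add_apply, Finsupp.tsub_apply, Finsupp.single_apply]
  have hH : ∀ j, j ∈ H ↔ c < μ j := by simp [H]
  refine ⟨∑ j ∈ H, ∑ l, t j l, Submodule.sum_mem _ fun j hj => ?_, ?_⟩
  · have h1 := trace_mem_PS j (d := μ j - c) (by rw [hH] at hj; omega) (G j)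
    have h2 := Alt_mem_P1 (Ideal.mul_mem_left _ (monomial (μ - Finsupp.single j (μ j - c)) 1) h1)
    simpa only [Finset.mul_sum, monomial_mul, one_mul, map_sum] using h2
  have hanti : ∀ j ∈ H, ∀ l ∈ H, j ≠ l → t l j = -t j l := by
    intro j hj l hl hne
    rw [hH] at hj hl
    have h1 := Alt_act (swap j l) (monomial (ν j l) (rename (Function.update id j l) (G j)))
    rw [sg_swap hne, neg_one_smul, act_monomial] at h1
    rw [← h1]
    simp only [t]
    congr 2
    · congr 1
      ext r
      rw [mapDomain_perm_apply, swap_inv, hν, hν]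
      rcases eq_or_ne r j with rfl | h2
      · simp [hne, hne.symm]; omega
      rcases eq_or_ne r l with rfl | h3
      · simp [hne, hne.symm]; omega
      simp [swap_apply_of_ne_of_ne h2 h3, h2.symm, h3.symm]
    · have h2 : (swap j l) ∘ Function.update id j l = Function.update id l j := by
        funext r
        rcases eq_or_ne r j with rfl | h2
        · simp [Function.update_of_ne hne]
        rcases eq_or_ne r l with rfl | h3
        · simp [Function.update_of_ne h2]
        simp [Function.update_of_ne h2, Function.update_of_ne h3, swap_apply_of_ne_of_ne h2 h3]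
      rw [rename_rename, h2]
      simp only [G, map_mul, map_pow, rename_X, rename_update_chi hl, Function.update_self,
        Function.update_of_ne hne, id]
      congr 2
      simp only [chi, map_prod, map_sub, rename_X, Function.update_of_ne hne, id]
      refine Finset.prod_congr rfl fun s hs => ?_
      have : s ≠ l := by
        rintro rfl
        simp at hs
        omega
      rw [Function.update_of_ne this, id]
  have hdiag : ∑ j ∈ H, ∑ l ∈ H, t j l = ∑ j ∈ H, t j j := by
    have h1 : ∀ j ∈ H, ∑ l ∈ H, t j l = t j j + ∑ l ∈ H, if j = l then 0 else t j l := by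
      intro j hj
      rw [← Finset.add_sum_erase H _ hj, ← Finset.add_sum_erase H _ hj, if_pos rfl, zero_add]
      congr 1
      refine Finset.sum_congr rfl fun l hl => ?_
      rw [if_neg (Finset.ne_of_mem_erase hl).symm]
    rw [Finset.sum_congr rfl h1, Finset.sum_add_distrib]
    set Z := ∑ j ∈ H, ∑ l ∈ H, if j = l then 0 else t j l with hZ
    have h2 : Z = -Z := by
      conv_lhs => rw [hZ, Finset.sum_comm]
      rw [hZ, ← Finset.sum_neg_distrib]
      refine Finset.sum_congr rfl fun j hj => ?_
      rw [← Finset.sum_neg_distrib]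
      refine Finset.sum_congr rfl fun l hl => ?_
      rcases eq_or_ne j l with rfl | h
      · simp
      · rw [if_neg h, if_neg h.symm, hanti j hj l hl h]
    have h3 : (2 : ℂ) • Z = 0 := by
      rw [two_smul]; nth_rewrite 1 [h2]; simp
    rw [(smul_eq_zero.mp h3).resolve_left two_ne_zero, add_zero]
  have hsplit : ∑ j ∈ H, ∑ l, t j l = ∑ j ∈ H, t j j + ∑ j ∈ H, ∑ l ∈ Hᶜ, t j l := by
    rw [← hdiag, ← Finset.sum_add_distrib]
    exact Finset.sum_congr rfl fun j _ => (Finset.sum_add_sum_compl H _).symm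
  rw [hsplit]
  have hA : Lead μ (∑ j ∈ H, t j j) (altK μ (rho μ c b * a)) := by
    rw [rho, Finset.sum_mul, map_sum]
    refine Lead.sum _ fun j hj => ?_
    have h1 : ν j j = μ := by
      ext r
      rw [hν]
      split_ifs with h
      · subst h; omega
      · omega
    have h2 : Function.update id j j = id := Function.update_eq_self j id
    simp only [t, h1, h2, rename_id, AlgHom.id_apply]
    exact lead_Alt hμ _
  have hB : Lead μ (∑ j ∈ H, ∑ l ∈ Hᶜ, t j l) (∑ j ∈ H, ∑ l ∈ Hᶜ, 0) := by
    refine Lead.sum _ fun j hj => Lead.sum _ fun l hl => ?_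
    rw [Finset.mem_compl, hH] at hl
    rw [hH] at hj
    have hne : j ≠ l := by rintro rfl; exact hl hj
    rcases (not_lt.mp hl).eq_or_lt with e | e
    · have : chi μ c l = 0 := Finset.prod_eq_zero (i := l) (by simp [e]) (sub_self _)
      simp only [t, G, map_mul, rename_update_chi hj, this, mul_zero, zero_mul, map_zero]
      exact Lead.zero μ
    · have hsub : ∀ s ≤ μ l,
          univ.filter (fun r => ν j l r ≤ s) ⊆ univ.filter (fun r => μ r ≤ s) := by
        intro s hs r hr
        simp only [Finset.mem_filter, Finset.mem_univ, true_and, hν] at hr ⊢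
        split_ifs at hr with h1 h2
        · omega
        · subst h1; omega
        · omega
        · omega
      refine lead_Alt_high hμ _ ?_ (k := μ l) (fun s hs => Finset.card_le_card (hsub s hs))
        (Finset.card_lt_card ⟨hsub _ le_rfl, fun h => ?_⟩)
      · have h1 : ∀ r, ν j l r + (if j = r then μ j - c else 0) =
            μ r + (if l = r then μ j - c else 0) := by
          intro r
          rw [hν]
          split_ifs with h1 h2
          · subst h1; omega
          · subst h1; omega
          · omega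
          · omega
        have h2 := Finset.sum_congr rfl (fun r (_ : r ∈ univ) => h1 r)
        simp only [Finset.sum_add_distrib, Finset.sum_ite_eq, Finset.mem_univ, if_true] at h2
        omega
      · have := h (show l ∈ univ.filter (fun r => μ r ≤ μ l) by simp)
        simp only [Finset.mem_filter, Finset.mem_univ, true_and, hν, hne, if_false,
          if_true] at this
        omega
  simpa using hA.add hB

end Pool.Agent.Lib.MP_ef3722_al
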