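import Pool.Agent.Lib.MP_ef3722_al.Basic

set_option autoImplicit false

open MvPolynomial Finset Equiv

namespace Pool.Agent.Lib.MP_ef3722_al

variable {n : ℕ} (lam : Fin n → ℕ) (m : ℕ)

/-- The window of earlier indices attached to `k`. -/
def Om (S : Finset (Fin n)) (k : Fin n) : Finset (Fin n) :=
  S.filter (fun j => j < k ∧ lam k ≤ lam j + m)

/-- The relations. -/
noncomputable def rel (S T : Finset (Fin n)) (k : Fin n) (b : ℕ) : K n :=
  ∑ k' ∈ S.filter (fun k' => k ≤ k'),
    X k' ^ (b + if k ∈ T then 1 else 0) * ∏ j ∈ Om lam m S k, (X k' - X j)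

/-- The ideal of relations. -/
noncomputable def HI (S T : Finset (Fin n)) : Ideal (K n) :=
  Ideal.span ({f | ∃ k ∈ S, ∃ b, f = rel lam m S T k b} ∪ {f | ∃ j, j ∉ S ∧ f = X j})

/-- The span of the bounded monomials. -/
noncomputable def Mon (S T : Finset (Fin n)) : Submodule ℂ (K n) :=
  Submodule.span ℂ {f | ∃ a : Fin n →₀ ℕ,
    (∀ k ∈ S, a k < (Om lam m S k).card + if k ∈ T then 1 else 0) ∧ (∀ k, k ∉ S → a k = 0) ∧
      f = monomial a 1}

lemma rel_mem (S T : Finset (Fin n)) {k : Fin n} (hk : k ∈ S) (b : ℕ) :
    rel lam m S T k b ∈ HI lam m S T :=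
  Ideal.subset_span (Or.inl ⟨k, hk, b, rfl⟩)

lemma X_mem_HI (S T : Finset (Fin n)) {k : Fin n} (hk : k ∉ S) : (X k : K n) ∈ HI lam m S T :=
  Ideal.subset_span (Or.inr ⟨k, hk, rfl⟩)

lemma relg_mem (S T : Finset (Fin n)) {k : Fin n} (hk : k ∈ S) (g : Polynomial (K n)) :
    ∑ k' ∈ S.filter (fun k' => k ≤ k'), g.eval (X k') *
      (X k' ^ (if k ∈ T then 1 else 0) * ∏ j ∈ Om lam m S k, (X k' - X j)) ∈ HI lam m S T := by
  induction g using Polynomial.induction_on' with
  | add p q hp hq =>
    simp only [Polynomial.eval_add, add_mul, Finset.sum_add_distrib]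
    exact Ideal.add_mem _ hp hq
  | monomial b c =>
    have := Ideal.mul_mem_left _ c (rel_mem lam m S T hk b)
    convert this using 1
    simp only [rel, Polynomial.eval_monomial, Finset.mul_sum, pow_add, mul_assoc]

variable {lam}

lemma hess_step1 (hl : Monotone lam) {S T : Finset (Fin n)} {τ : Fin n}
    (hτS : τ ∈ S) (hmax : ∀ k ∈ T, k ≤ τ) (hlow : ∀ k ∈ S, k ≤ τ → k ∈ T) :
    HI lam m (S.erase τ) ((S.erase τ).filter (fun k => lam k ≤ lam τ + m)) ≤
      HI lam m S T ⊔ Ideal.span {X τ} := by
  have hX : (X τ : K n) ∈ HI lam m S T ⊔ Ideal.span {X τ} :=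
    Ideal.mem_sup_right (Ideal.subset_span rfl)
  refine Ideal.span_le.mpr ?_
  rintro f (⟨k, hk, b, rfl⟩ | ⟨j, hj, rfl⟩)
  · have hkS : k ∈ S := Finset.mem_of_mem_erase hk
    have hkτ : k ≠ τ := Finset.ne_of_mem_erase hk
    have hr : rel lam m S T k b ∈ HI lam m S T ⊔ Ideal.span {X τ} :=
      Ideal.mem_sup_left (rel_mem lam m S T hkS b)
    rcases lt_or_gt_of_ne hkτ with h | h
    · have hkT : k ∈ T := hlow k hkS h.le
      have hkT' : k ∈ (S.erase τ).filter (fun k => lam k ≤ lam τ + m) :=
        Finset.mem_filter.mpr ⟨hk, (hl h.le).trans (Nat.le_add_right _ _)⟩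
      have hOm : Om lam m (S.erase τ) k = Om lam m S k := by
        ext j
        simp only [Om, Finset.mem_filter, Finset.mem_erase]
        constructor
        · rintro ⟨⟨_, h2⟩, h3⟩; exact ⟨h2, h3⟩
        · rintro ⟨h2, h3⟩; exact ⟨⟨(h3.1.trans h).ne, h2⟩, h3⟩
      have hfil : S.filter (fun k' => k ≤ k') = insert τ ((S.erase τ).filter (fun k' => k ≤ k')) := by
        ext j
        simp only [Finset.mem_filter, Finset.mem_insert, Finset.mem_erase]
        constructor
        · rintro ⟨h1, h2⟩
          rcases eq_or_ne j τ with rfl | h3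
          · exact Or.inl rfl
          · exact Or.inr ⟨⟨h3, h1⟩, h2⟩
        · rintro (rfl | ⟨⟨_, h1⟩, h2⟩)
          · exact ⟨hτS, h.le⟩
          · exact ⟨h1, h2⟩
      have : rel lam m (S.erase τ) ((S.erase τ).filter (fun k => lam k ≤ lam τ + m)) k b =
          rel lam m S T k b - (X τ ^ b * ∏ j ∈ Om lam m S k, (X τ - X j)) * X τ := by
        simp only [rel, hkT, hkT', if_true, hOm, hfil]
        rw [Finset.sum_insert (by simp)]
        ring
      rw [SetLike.mem_coe, this]
      exact Ideal.sub_mem _ hr (Ideal.mul_mem_left _ _ hX)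
    · have hkT : k ∉ T := fun h' => absurd (hmax k h') (not_le.mpr h)
      have hfil : (S.erase τ).filter (fun k' => k ≤ k') = S.filter (fun k' => k ≤ k') := by
        ext j
        simp only [Finset.mem_filter, Finset.mem_erase]
        constructor
        · rintro ⟨⟨_, h1⟩, h2⟩; exact ⟨h1, h2⟩
        · rintro ⟨h1, h2⟩; exact ⟨⟨(h.trans_le h2).ne', h1⟩, h2⟩
      by_cases hw : lam k ≤ lam τ + m
      · have hkT' : k ∈ (S.erase τ).filter (fun k => lam k ≤ lam τ + m) :=
          Finset.mem_filter.mpr ⟨hk, hw⟩
        have hOm : Om lam m S k = insert τ (Om lam m (S.erase τ) k) := by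
          ext j
          simp only [Om, Finset.mem_filter, Finset.mem_insert, Finset.mem_erase]
          constructor
          · rintro ⟨h1, h2⟩
            rcases eq_or_ne j τ with rfl | h3
            · exact Or.inl rfl
            · exact Or.inr ⟨⟨h3, h1⟩, h2⟩
          · rintro (rfl | ⟨⟨_, h1⟩, h2⟩)
            · exact ⟨hτS, h, hw⟩
            · exact ⟨h1, h2⟩
        have hτn : τ ∉ Om lam m (S.erase τ) k := by simp [Om]
        have : rel lam m (S.erase τ) ((S.erase τ).filter (fun k => lam k ≤ lam τ + m)) k b =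
            rel lam m S T k b + (∑ k' ∈ S.filter (fun k' => k ≤ k'),
              X k' ^ b * ∏ j ∈ Om lam m (S.erase τ) k, (X k' - X j)) * X τ := by
          simp only [rel, hkT, hkT', if_true, if_false, hOm, hfil, Finset.prod_insert hτn,
            Finset.sum_mul, ← Finset.sum_add_distrib]
          refine Finset.sum_congr rfl fun j _ => ?_
          ring
        rw [SetLike.mem_coe, this]
        exact Ideal.add_mem _ hr (Ideal.mul_mem_left _ _ hX)
      · have hkT' : k ∉ (S.erase τ).filter (fun k => lam k ≤ lam τ + m) := by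
          simp [hw]
        have hOm : Om lam m (S.erase τ) k = Om lam m S k := by
          ext j
          simp only [Om, Finset.mem_filter, Finset.mem_erase]
          constructor
          · rintro ⟨⟨_, h2⟩, h3⟩; exact ⟨h2, h3⟩
          · rintro ⟨h2, h3⟩
            refine ⟨⟨?_, h2⟩, h3⟩
            rintro rfl
            exact hw h3.2
        have : rel lam m (S.erase τ) ((S.erase τ).filter (fun k => lam k ≤ lam τ + m)) k b =
            rel lam m S T k b := by
          simp only [rel, hkT, hkT', if_false, hOm, hfil]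
        rw [SetLike.mem_coe, this]
        exact hr
  · rcases eq_or_ne j τ with rfl | h
    · exact hX
    · exact Ideal.mem_sup_left (X_mem_HI lam m S T (fun h' => hj (Finset.mem_erase.mpr ⟨h, h'⟩)))

lemma hess_mon1 {S T : Finset (Fin n)} {τ : Fin n}
    (hτS : τ ∈ S) (hmax : ∀ k ∈ T, k ≤ τ) (hlow : ∀ k ∈ S, k ≤ τ → k ∈ T) :
    Mon lam m (S.erase τ) ((S.erase τ).filter (fun k => lam k ≤ lam τ + m)) ≤ Mon lam m S T := by
  refine Submodule.span_mono ?_
  rintro f ⟨a, h1, h2, rfl⟩
  refine ⟨a, fun k hkS => ?_, fun k hk => h2 k (fun h => hk (Finset.mem_of_mem_erase h)), rfl⟩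
  rcases eq_or_ne k τ with rfl | hkτ
  · rw [h2 k (by simp), if_pos (hlow k hkS le_rfl)]
    omega
  have hk : k ∈ S.erase τ := Finset.mem_erase.mpr ⟨hkτ, hkS⟩
  have h3 := h1 k hk
  have hsub : Om lam m (S.erase τ) k ⊆ Om lam m S k :=
    Finset.filter_subset_filter _ (Finset.erase_subset _ _)
  have hc := Finset.card_le_card hsub
  rcases lt_or_gt_of_ne hkτ with h | h
  · rw [if_pos (hlow k hkS h.le)]
    split_ifs at h3 <;> omega
  · by_cases hw : lam k ≤ lam τ + m
    · have hss : Om lam m (S.erase τ) k ⊂ Om lam m S k := by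
        refine ⟨hsub, fun h' => ?_⟩
        have : τ ∈ Om lam m S k := Finset.mem_filter.mpr ⟨hτS, h, hw⟩
        have := h' this
        simp [Om] at this
      have := Finset.card_lt_card hss
      split_ifs at h3 <;> omega
    · rw [if_neg (by simp [hw])] at h3
      omega

lemma hess_step2 (hl : Monotone lam) {S T : Finset (Fin n)} {τ : Fin n}
    (hτS : τ ∈ S) (hτT : τ ∈ T) (hmax : ∀ k ∈ T, k ≤ τ) {f : K n}
    (hf : f ∈ HI lam m S (T.erase τ)) : X τ * f ∈ HI lam m S T := by
  have key : HI lam m S (T.erase τ) ≤ (HI lam m S T).colon {X τ} := by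
    refine Ideal.span_le.mpr ?_
    rintro f (⟨k, hk, b, rfl⟩ | ⟨j, hj, rfl⟩)
    · rw [SetLike.mem_coe, Submodule.mem_colon_singleton, smul_eq_mul]
      rcases eq_or_ne k τ with rfl | hkτ
      · have h1 : rel lam m S (T.erase k) k b * X k = rel lam m S T k b -
            ∑ k' ∈ S.filter (fun k' => k < k'),
              X k' ^ b * ∏ j ∈ insert k (Om lam m S k), (X k' - X j) := by
          have hn : k ∉ Om lam m S k := by simp [Om]
          have hfil : S.filter (fun k' => k ≤ k') = insert k (S.filter (fun k' => k < k')) := by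
            ext j
            simp only [Finset.mem_filter, Finset.mem_insert]
            constructor
            · rintro ⟨h1, h2⟩
              rcases eq_or_lt_of_le h2 with h3 | h3
              · exact Or.inl h3.symm
              · exact Or.inr ⟨h1, h3⟩
            · rintro (rfl | ⟨h1, h2⟩)
              · exact ⟨hk, le_rfl⟩
              · exact ⟨h1, h2.le⟩
          simp only [rel, hτT, if_true, Finset.notMem_erase, if_false, Finset.prod_insert hn, hfil]
          rw [Finset.sum_insert (by simp), Finset.sum_insert (by simp), add_mul, Finset.sum_mul,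
            add_sub_assoc, ← Finset.sum_sub_distrib]
          congr 1
          · ring
          · refine Finset.sum_congr rfl fun j _ => ?_
            ring
        rw [h1]
        refine Ideal.sub_mem _ (rel_mem lam m S T hk b) ?_
        rcases (S.filter (fun k' => k < k')).eq_empty_or_nonempty with he | hne
        · rw [he]; simp
        · set t := (S.filter (fun k' => k < k')).min' hne with ht
          have htm : t ∈ S.filter (fun k' => k < k') := Finset.min'_mem _ _
          have htS : t ∈ S := (Finset.mem_filter.mp htm).1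
          have hkt : k < t := (Finset.mem_filter.mp htm).2
          have htT : t ∉ T := fun h' => absurd (hmax t h') (not_le.mpr hkt)
          have hfil : S.filter (fun k' => k < k') = S.filter (fun k' => t ≤ k') := by
            ext j
            simp only [Finset.mem_filter]
            constructor
            · rintro ⟨h1, h2⟩
              exact ⟨h1, Finset.min'_le _ _ (Finset.mem_filter.mpr ⟨h1, h2⟩)⟩
            · rintro ⟨h1, h2⟩
              exact ⟨h1, hkt.trans_le h2⟩
          have hsub : Om lam m S t ⊆ insert k (Om lam m S k) := by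
            intro j hj
            simp only [Om, Finset.mem_filter, Finset.mem_insert] at hj ⊢
            obtain ⟨h1, h2, h3⟩ := hj
            rcases lt_trichotomy j k with h | h | h
            · exact Or.inr ⟨h1, h, (hl hkt.le).trans h3⟩
            · exact Or.inl h
            · exact absurd (Finset.min'_le _ _ (Finset.mem_filter.mpr ⟨h1, h⟩)) (not_le.mpr h2)
          have := relg_mem lam m S T htS (Polynomial.X ^ b *
            ∏ j ∈ insert k (Om lam m S k) \ Om lam m S t, (Polynomial.X - Polynomial.C (X j)))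
          rw [hfil]
          convert this using 2 with j
          rw [← Finset.prod_sdiff hsub]
          simp [htT, Polynomial.eval_prod, mul_assoc]
      · have : rel lam m S (T.erase τ) k b = rel lam m S T k b := by
          simp only [rel, Finset.mem_erase, hkτ, ne_eq, not_false_eq_true, true_and]
        rw [this]
        exact Ideal.mul_mem_right _ _ (rel_mem lam m S T hk b)
    · rw [SetLike.mem_coe, Submodule.mem_colon_singleton, smul_eq_mul]
      exact Ideal.mul_mem_right _ _ (X_mem_HI lam m S T hj)
  have := key hf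
  rwa [Submodule.mem_colon_singleton, smul_eq_mul, mul_comm] at this

lemma hess_mon2 {S T : Finset (Fin n)} {τ : Fin n} (hτS : τ ∈ S) (hτT : τ ∈ T) {f : K n}
    (hf : f ∈ Mon lam m S (T.erase τ)) : X τ * f ∈ Mon lam m S T := by
  induction hf using Submodule.span_induction with
  | mem f hf =>
    obtain ⟨a, h1, h2, rfl⟩ := hf
    refine Submodule.subset_span ⟨Finsupp.single τ 1 + a, fun k hk => ?_, fun k hk => ?_, ?_⟩
    · have h3 := h1 k hk
      rcases eq_or_ne k τ with rfl | h
      · simp only [Finset.notMem_erase, if_false, hτT, if_true, Finsupp.add_apply,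
          Finsupp.single_eq_same] at h3 ⊢
        omega
      · simpa [Finsupp.single_eq_of_ne h, h] using h3
    · have : k ≠ τ := fun e => hk (e ▸ hτS)
      simp [Finsupp.single_eq_of_ne this, h2 k hk]
    · rw [X, monomial_mul, one_mul]
  | zero => simp
  | add f g _ _ hf hg => rw [mul_add]; exact Submodule.add_mem _ hf hg
  | smul c f _ hf => rw [mul_smul_comm]; exact Submodule.smul_mem _ _ hf

theorem hess (hl : Monotone lam) : ∀ (N : ℕ) (S : Finset (Fin n)), S.card = N →
    ∀ (M : ℕ) (T : Finset (Fin n)), T.card = M → T ⊆ S → (∀ k ∈ T, ∀ j ∈ S, j ≤ k → j ∈ T) →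
    ∀ f : K n, ∃ g ∈ Mon lam m S T, f - g ∈ HI lam m S T := by
  intro N
  induction N with
  | zero =>
    intro S hS M T _ _ _ f
    obtain rfl : S = ∅ := Finset.card_eq_zero.mp hS
    refine ⟨C (constantCoeff f), ?_, ?_⟩
    · have : (C (constantCoeff f) : K n) = constantCoeff f • monomial 0 1 := by
        simp [smul_eq_C_mul]
      rw [this]
      exact Submodule.smul_mem _ _ (Submodule.subset_span ⟨0, by simp, by simp, rfl⟩)
    · induction f using MvPolynomial.induction_on with
      | C a => simp
      | add p q hp hq =>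
        have := Ideal.add_mem _ hp hq
        convert this using 1
        simp only [map_add]; ring
      | mul_X p k _ =>
        simpa using Ideal.mul_mem_left _ p (X_mem_HI lam m ∅ T (Finset.notMem_empty k))
  | succ N ihN =>
    intro S hS M
    induction M with
    | zero =>
      intro T hT _ _ f
      obtain rfl : T = ∅ := Finset.card_eq_zero.mp hT
      have hne : S.Nonempty := Finset.card_pos.mp (by omega)
      refine ⟨0, Submodule.zero_mem _, ?_⟩
      have h1 := rel_mem lam m S ∅ (S.min'_mem hne) 0
      have hOm : Om lam m S (S.min' hne) = ∅ := by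
        apply Finset.filter_eq_empty_iff.mpr
        intro j hj h
        exact absurd (S.min'_le j hj) (not_le.mpr h.1)
      have hfil : S.filter (fun k' => S.min' hne ≤ k') = S :=
        Finset.filter_true_of_mem fun j hj => S.min'_le j hj
      simp only [rel, hOm, hfil, Finset.notMem_empty, if_false, add_zero, pow_zero,
        Finset.prod_empty, mul_one, Finset.sum_const, hS] at h1
      have h2 := Ideal.mul_mem_left _ (C (((N + 1 : ℕ) : ℂ)⁻¹) * f) h1
      convert h2 using 1
      have : ((N + 1 : ℕ) : ℂ) ≠ 0 := by exact_mod_cast Nat.succ_ne_zero N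
      rw [nsmul_one, sub_zero, mul_right_comm, ← map_natCast (C : ℂ →+* K n), ← map_mul,
        inv_mul_cancel₀ this]
      simp
    | succ M ihM =>
      intro T hT hTS hlow f
      have hne : T.Nonempty := Finset.card_pos.mp (by omega)
      set τ := T.max' hne
      have hτT : τ ∈ T := T.max'_mem hne
      have hτS : τ ∈ S := hTS hτT
      have hmax : ∀ k ∈ T, k ≤ τ := fun k hk => T.le_max' k hk
      have hlow' : ∀ k ∈ S, k ≤ τ → k ∈ T := fun k hk h => hlow τ hτT k hk h
      obtain ⟨g, hg, hfg⟩ := ihN (S.erase τ) (by rw [Finset.card_erase_of_mem hτS]; omega) _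
        ((S.erase τ).filter (fun k => lam k ≤ lam τ + m)) rfl (Finset.filter_subset _ _)
        (fun k hk j hj hjk => Finset.mem_filter.mpr
          ⟨hj, (hl hjk).trans (Finset.mem_filter.mp hk).2⟩) f
      obtain ⟨i, hi, z, hz, hsum⟩ := Submodule.mem_sup.mp (hess_step1 m hl hτS hmax hlow' hfg)
      obtain ⟨w, rfl⟩ := Ideal.mem_span_singleton'.mp hz
      obtain ⟨g', hg', hwg⟩ := ihM (T.erase τ) (by rw [Finset.card_erase_of_mem hτT]; omega)
        ((Finset.erase_subset _ _).trans hTS)
        (fun k hk j hj hjk => Finset.mem_erase.mpr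
          ⟨(hjk.trans_lt (lt_of_le_of_ne (hmax k (Finset.mem_of_mem_erase hk))
            (Finset.ne_of_mem_erase hk))).ne,
            hlow k (Finset.mem_of_mem_erase hk) j hj hjk⟩) w
      refine ⟨g + X τ * g', Submodule.add_mem _ (hess_mon1 m hτS hmax hlow' hg)
        (hess_mon2 m hτS hτT hg'), ?_⟩
      have : f - (g + X τ * g') = i + X τ * (w - g') := by
        rw [show f = i + w * X τ + g by rw [hsum]; ring]; ring
      rw [this]
      exact Ideal.add_mem _ hi (hess_step2 m hl hτS hτT hmax hwg)

end Pool.Agent.Lib.MP_ef3722_al
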