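import Pool.Agent.Lib.MP_ef3722_al.Top

set_option autoImplicit false

open MvPolynomial Finset Equiv

namespace Pool.Agent.Lib.MP_ef3722_al

variable {n : ℕ}

/-- A labelling which isolates the indices outside `S`. -/
def ky (S : Finset (Fin n)) (f : Fin n → ℕ) (r : Fin n) : ℕ :=
  if r ∈ S then 2 * f r else 2 * r.val + 1

lemma ky_eq_iff {S : Finset (Fin n)} {f : Fin n → ℕ} {r s : Fin n} :
    ky S f r = ky S f s ↔ (r ∈ S ∧ s ∈ S ∧ f r = f s) ∨ r = s := by
  unfold ky
  by_cases h1 : r ∈ S <;> by_cases h2 : s ∈ S <;> simp only [h1, h2, if_true, if_false]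
  · constructor
    · intro h; exact Or.inl ⟨trivial, trivial, by omega⟩
    · rintro (h | rfl)
      · rw [h.2.2]
      · rfl
  · constructor
    · intro h; omega
    · rintro (h | rfl)
      · exact h.2.1.elim
      · exact (h2 h1).elim
  · constructor
    · intro h; omega
    · rintro (h | rfl)
      · exact h.1.elim
      · exact (h1 h2).elim
  · constructor
    · intro h; exact Or.inr (Fin.ext (by omega))
    · rintro (h | rfl)
      · exact h.1.elim
      · rfl

variable (lam : Fin n → ℕ) (m : ℕ)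

/-- Labelling for the `j`-th factor. -/
def key (S : Finset (Fin n)) (j : ℕ) : Fin n → ℕ := ky S (fun r => al m j (lam r))

/-- Exponents of the differences. -/
def EE (S : Finset (Fin n)) (r s : Fin n) : ℕ :=
  ∑ j ∈ range m, if key lam m S j r = key lam m S j s then 1 else 0

/-- The product of the block Vandermonde polynomials. -/
noncomputable def del (S : Finset (Fin n)) : K n := vd (EE lam m S)

lemma del_eq_prod (S : Finset (Fin n)) : del lam m S = ∏ j ∈ range m, vdm (key lam m S j) :=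
  vd_sum _ _

lemma del_ne_zero (S : Finset (Fin n)) : del lam m S ≠ 0 := vd_ne_zero _

lemma EE_symm (S : Finset (Fin n)) (r s : Fin n) : EE lam m S r s = EE lam m S s r := by
  simp only [EE, eq_comm]

/-- Second exponents attached to an ordering. -/
noncomputable def bex (S : Finset (Fin n)) (pos : Fin n → ℕ) (j : ℕ) : Fin n →₀ ℕ :=
  fs (fun ν => if ν ∈ S then
    (S.filter (fun ν' => pos ν' < pos ν ∧ inR m j (lam ν) (lam ν'))).card else 0)

/-- The leading coefficient of one determinant. -/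
noncomputable def QQ (S : Finset (Fin n)) (pos : Fin n → ℕ) (j : ℕ) : K n :=
  altK (key lam m S j) (monomial (bex lam m S pos j) 1)

/-- Admissible orderings; larger `pos` means earlier. -/
def Gam (S : Finset (Fin n)) (τ : ℕ) (pos : Fin n → ℕ) : Prop :=
  Set.InjOn pos S ∧ (∀ ν ∈ S, pos ν < S.card) ∧
    (∀ ν ∈ S, ∀ ν' ∈ S, pos ν = pos ν' + 1 → lam ν' ≤ lam ν + m) ∧
    (∀ ν ∈ S, pos ν + 1 = S.card → lam ν < τ)

/-- Size of the window below `r`. -/
def sw (S : Finset (Fin n)) (r : Fin n) : ℕ :=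
  (S.filter (fun s => lam s < lam r ∧ lam r ≤ lam s + m)).card

/-- Block symmetric polynomials with bounded degrees. -/
def WW (S : Finset (Fin n)) (τ : ℕ) : Submodule ℂ (K n) where
  carrier := {f | (∀ r ∈ S, ∀ s ∈ S, lam r = lam s → rename (swap r s) f = f) ∧
    ∀ β ∈ f.support, ∀ r, (r ∈ S → β r + (if τ ≤ lam r then 1 else 0) ≤ sw lam m S r) ∧
      (r ∉ S → β r = 0)}
  zero_mem' := by simp
  add_mem' := by
    rintro f g ⟨h1, h2⟩ ⟨h3, h4⟩
    refine ⟨fun r hr s hs e => by rw [map_add, h1 r hr s hs e, h3 r hr s hs e], fun β hβ => ?_⟩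
    rcases Finset.mem_union.mp (support_add hβ) with h | h
    · exact h2 β h
    · exact h4 β h
  smul_mem' := by
    rintro c f ⟨h1, h2⟩
    exact ⟨fun r hr s hs e => by rw [map_smul, h1 r hr s hs e],
      fun β hβ => h2 β (support_smul hβ)⟩

/-- Degree bound for one factor. -/
def BB (S : Finset (Fin n)) (r : Fin n) (j : ℕ) : ℕ :=
  ((S.erase r).filter (fun s => inR m j (lam r) (lam s))).card

variable {lam m}

lemma sum_EE {S : Finset (Fin n)} {r : Fin n} (hr : r ∈ S) :
    ∑ s ∈ univ.erase r, EE lam m S r s =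
      ∑ s ∈ S.erase r, ∑ j ∈ range m, if al m j (lam r) = al m j (lam s) then 1 else 0 := by
  symm
  refine Finset.sum_subset_zero_on_sdiff (Finset.erase_subset_erase _ (Finset.subset_univ _)) ?_ ?_
  · intro s hs
    simp only [Finset.mem_sdiff, Finset.mem_erase, Finset.mem_univ, and_true, not_and] at hs
    refine Finset.sum_eq_zero fun j _ => if_neg ?_
    rw [key, ky_eq_iff]
    rintro (h | h)
    · exact hs.2 hs.1 h.2.1
    · exact hs.1 h.symm
  · intro s hs
    rw [Finset.mem_erase] at hs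
    refine Finset.sum_congr rfl fun j _ => ?_
    simp only [key, ky_eq_iff, hr, hs.2, hs.1.symm, true_and, or_false]

lemma sum_BB (hm : 0 < m) {S : Finset (Fin n)} {r : Fin n} (hr : r ∈ S) :
    ∑ j ∈ range m, BB lam m S r j = degreeOf r (del lam m S) + sw lam m S r := by
  rw [del, degreeOf_vd (EE_symm lam m S), sum_EE hr]
  simp only [BB, Finset.card_filter]
  rw [Finset.sum_comm]
  simp only [sum_inR hm, Finset.sum_add_distrib]
  congr 1
  rw [sw, Finset.card_filter, ← Finset.add_sum_erase S _ hr]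
  simp

lemma bex_le (hm : 0 < m) {S : Finset (Fin n)} {r ν : Fin n} (hr : r ∈ S) (pos : Fin n → ℕ)
    {j : ℕ} (h : key lam m S j ν = key lam m S j r) :
    ν ∈ S ∧ al m j (lam ν) = al m j (lam r) ∧
      ((S.erase ν).filter (fun s => inR m j (lam ν) (lam s))).card = BB lam m S r j ∧
      bex lam m S pos j ν = (S.filter (fun ν' => pos ν' < pos ν ∧ inR m j (lam ν) (lam ν'))).card := by
  rw [key, ky_eq_iff] at h
  have h1 : ν ∈ S := by
    rcases h with h | rfl
    · exact h.1
    · exact hr
  have h2 : al m j (lam ν) = al m j (lam r) := by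
    rcases h with h | rfl
    · exact h.2.2
    · rfl
  refine ⟨h1, h2, ?_, by simp [bex, h1]⟩
  simp only [BB, Finset.filter_erase, inR_congr h2]
  rw [Finset.card_erase_of_mem, Finset.card_erase_of_mem]
  · exact Finset.mem_filter.mpr ⟨hr, inR_of_eq hm rfl⟩
  · exact Finset.mem_filter.mpr ⟨h1, inR_of_eq hm h2⟩

lemma degreeOf_QQ_le (hm : 0 < m) {S : Finset (Fin n)} {r : Fin n} (hr : r ∈ S)
    (pos : Fin n → ℕ) (j : ℕ) : degreeOf r (QQ lam m S pos j) ≤ BB lam m S r j := by
  apply degreeOf_altK_monomial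
  intro ν h
  obtain ⟨_, _, h3, h4⟩ := bex_le hm hr pos h
  rw [h4, ← h3]
  apply Finset.card_le_card
  intro s hs
  simp only [Finset.mem_filter, Finset.mem_erase] at hs ⊢
  refine ⟨⟨?_, hs.1⟩, hs.2.2⟩
  rintro rfl
  exact lt_irrefl _ hs.2.1

lemma degreeOf_QQ_notMem {S : Finset (Fin n)} {r : Fin n} (hr : r ∉ S)
    (pos : Fin n → ℕ) (j : ℕ) : degreeOf r (QQ lam m S pos j) = 0 := by
  apply Nat.eq_zero_of_le_zero
  apply degreeOf_altK_monomial
  intro ν h
  rw [key, ky_eq_iff] at h
  rcases h with h | rfl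
  · exact (hr h.2.1).elim
  · simp [bex, hr]

lemma exists_pos {S : Finset (Fin n)} {τ : ℕ} {pos : Fin n → ℕ} (h : Gam lam m S τ pos) {k : ℕ}
    (hk : k < S.card) : ∃ ν ∈ S, pos ν = k := by
  have h1 : S.image pos = range S.card := by
    apply Finset.eq_of_subset_of_card_le
    · intro k hk
      obtain ⟨ν, hν, rfl⟩ := Finset.mem_image.mp hk
      exact Finset.mem_range.mpr (h.2.1 ν hν)
    · rw [Finset.card_image_of_injOn h.1, Finset.card_range]
  have : k ∈ S.image pos := h1 ▸ Finset.mem_range.mpr hk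
  exact Finset.mem_image.mp this

lemma degreeOf_QQ_lt (hm : 0 < m) {S : Finset (Fin n)} {τ : ℕ} {pos : Fin n → ℕ}
    (h : Gam lam m S τ pos) {r : Fin n} (hr : r ∈ S) (hτ : τ ≤ lam r) :
    ∃ j ∈ range m, degreeOf r (QQ lam m S pos j) < BB lam m S r j := by
  obtain ⟨ν0, h0, hmax⟩ := Finset.exists_max_image (S.filter (fun ν => lam r ≤ lam ν + m)) pos
    ⟨r, Finset.mem_filter.mpr ⟨hr, Nat.le_add_right _ _⟩⟩
  rw [Finset.mem_filter] at h0
  have hlt : lam ν0 < lam r := by
    rcases (Nat.succ_le_of_lt (h.2.1 ν0 h0.1)).eq_or_lt with e | e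
    · exact (h.2.2.2 ν0 h0.1 e).trans_le hτ
    · obtain ⟨ν1, h1, e1⟩ := exists_pos h e
      have h2 := h.2.2.1 ν1 h1 ν0 h0.1 e1
      have h3 : ¬ lam r ≤ lam ν1 + m := fun h' => by
        have := hmax ν1 (Finset.mem_filter.mpr ⟨h1, h'⟩)
        omega
      omega
  obtain ⟨j, hj, e⟩ := exists_cut hm hlt h0.2
  refine ⟨j, Finset.mem_range.mpr hj, ?_⟩
  have hne : ν0 ≠ r := fun e' => by rw [e'] at hlt; exact lt_irrefl _ hlt
  have hpos : 0 < BB lam m S r j := Finset.card_pos.mpr ⟨ν0, Finset.mem_filter.mpr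
    ⟨Finset.mem_erase.mpr ⟨hne, h0.1⟩, (inR_iff hm).mpr (Or.inr e)⟩⟩
  suffices degreeOf r (QQ lam m S pos j) ≤ BB lam m S r j - 1 by omega
  apply degreeOf_altK_monomial
  intro ν hν
  obtain ⟨h1, h2, h3, h4⟩ := bex_le hm hr pos hν
  have h5 := al_le m j (lam ν)
  have hν0 : ν0 ∈ (S.erase ν).filter (fun s => inR m j (lam ν) (lam s)) := by
    refine Finset.mem_filter.mpr ⟨Finset.mem_erase.mpr ⟨?_, h0.1⟩,
      (inR_iff hm).mpr (Or.inr (by rw [h2]; exact e))⟩
    rintro rfl
    rw [h2] at h5
    omega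
  rw [h4, ← h3, ← Finset.card_erase_of_mem hν0]
  apply Finset.card_le_card
  intro s hs
  simp only [Finset.mem_filter, Finset.mem_erase] at hs ⊢
  refine ⟨?_, ⟨?_, hs.1⟩, hs.2.2⟩
  · rintro rfl
    have := hmax ν (Finset.mem_filter.mpr ⟨h1, by rw [h2] at h5; omega⟩)
    omega
  · rintro rfl
    exact lt_irrefl _ hs.2.1

lemma rename_del {S : Finset (Fin n)} {σ : Perm (Fin n)}
    (hσ : ∀ j, σ ∈ stab (key lam m S j)) : rename σ (del lam m S) = sg σ ^ m • del lam m S := by
  rw [del_eq_prod, map_prod, Finset.prod_congr rfl (fun j _ => rename_vdm (hσ j)),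
    Finset.prod_smul, Finset.prod_const, Finset.card_range]

lemma swap_mem_stab_key {S : Finset (Fin n)} {r s : Fin n} (hr : r ∈ S) (hs : s ∈ S)
    (h : lam r = lam s) (j : ℕ) : swap r s ∈ stab (key lam m S j) :=
  swap_mem_stab (ky_eq_iff.mpr (Or.inl ⟨hr, hs, by rw [h]⟩))

lemma exists_quot (hm : 0 < m) {S : Finset (Fin n)} {τ : ℕ} {pos : Fin n → ℕ}
    (h : Gam lam m S τ pos) :
    ∃ P ∈ WW lam m S τ, ∏ j ∈ range m, QQ lam m S pos j = del lam m S * P := by
  have hd : del lam m S ∣ ∏ j ∈ range m, QQ lam m S pos j := by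
    rw [del_eq_prod]
    exact Finset.prod_dvd_prod_of_dvd _ _ fun j _ => vdm_dvd_of_alt fun σ hσ => rename_altK hσ _
  obtain ⟨P, hP⟩ := hd
  refine ⟨P, ⟨fun r hr s hs e => ?_, fun β hβ r => ?_⟩, hP⟩
  · have h1 := swap_mem_stab_key (m := m) hr hs e
    refine inv_of_mul (pow_ne_zero m (sg_ne_zero _)) (del_ne_zero lam m S) (rename_del h1) ?_
    rw [← hP, map_prod]
    simp only [QQ]
    rw [Finset.prod_congr rfl (fun j _ => rename_altK (h1 j) _),
      Finset.prod_smul, Finset.prod_const, Finset.card_range]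
  · have hP0 : P ≠ 0 := by rintro rfl; simp at hβ
    have h1 := monomial_le_degreeOf r hβ
    have h2 : degreeOf r (del lam m S) + degreeOf r P ≤
        ∑ j ∈ range m, degreeOf r (QQ lam m S pos j) := by
      rw [← degreeOf_mul_eq (del_ne_zero lam m S) hP0, ← hP]
      exact degreeOf_prod_le _ _ _
    refine ⟨fun hr => ?_, fun hr => ?_⟩
    · have h3 := sum_BB (lam := lam) hm hr
      split_ifs with hτ
      · have := Finset.sum_lt_sum (fun j _ => degreeOf_QQ_le (lam := lam) hm hr pos j)
          (degreeOf_QQ_lt hm h hr hτ)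
        omega
      · have := Finset.sum_le_sum (s := range m)
          (fun j _ => degreeOf_QQ_le (lam := lam) hm hr pos j)
        omega
    · simp only [degreeOf_QQ_notMem hr, Finset.sum_const_zero] at h2
      omega

lemma gam_insert {S : Finset (Fin n)} {r0 : Fin n} (h0 : r0 ∈ S) {pos : Fin n → ℕ}
    (h : Gam lam m (S.erase r0) (lam r0 + m + 1) pos) :
    Gam lam m S (lam r0 + 1) (Function.update pos r0 (S.erase r0).card) := by
  obtain ⟨h1, h2, h3, h4⟩ := h
  have hc : S.card = (S.erase r0).card + 1 := (Finset.card_erase_add_one h0).symm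
  have hm : ∀ ν ∈ S, ν ≠ r0 → ν ∈ S.erase r0 := fun ν a b => Finset.mem_erase.mpr ⟨b, a⟩
  refine ⟨fun a ha b hb e => ?_, fun ν hν => ?_, fun ν hν ν' hν' e => ?_, fun ν hν e => ?_⟩
  · rcases eq_or_ne a r0 with rfl | ha0 <;> rcases eq_or_ne b a with rfl | hb0
    · rfl
    · rw [Function.update_self, Function.update_of_ne hb0] at e
      have := h2 b (hm b hb hb0)
      omega
    · rfl
    · rcases eq_or_ne b r0 with rfl | hb1
      · rw [Function.update_self, Function.update_of_ne ha0] at e
        have := h2 a (hm a ha ha0)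
        omega
      · rw [Function.update_of_ne ha0, Function.update_of_ne hb1] at e
        exact h1 (hm a ha ha0) (hm b hb hb1) e
  · rcases eq_or_ne ν r0 with rfl | hν0
    · rw [Function.update_self]; omega
    · rw [Function.update_of_ne hν0]
      have := h2 ν (hm ν hν hν0)
      omega
  · rcases eq_or_ne ν' r0 with rfl | hν0'
    · rcases eq_or_ne ν ν' with rfl | hν0
      · omega
      · rw [Function.update_self, Function.update_of_ne hν0] at e
        have := h2 ν (hm ν hν hν0)
        omega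
    · rcases eq_or_ne ν r0 with rfl | hν0
      · rw [Function.update_self, Function.update_of_ne hν0'] at e
        have := h4 ν' (hm ν' hν' hν0') e.symm
        omega
      · rw [Function.update_of_ne hν0, Function.update_of_ne hν0'] at e
        exact h3 ν (hm ν hν hν0) ν' (hm ν' hν' hν0') e
  · rcases eq_or_ne ν r0 with rfl | hν0
    · omega
    · rw [Function.update_of_ne hν0] at e
      have := h2 ν (hm ν hν hν0)
      omega

lemma stab_key_erase {S : Finset (Fin n)} {r0 : Fin n} (j : ℕ) :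
    stab (key lam m (S.erase r0) j) = (stab (key lam m S j)).filter (fun σ => σ r0 = r0) := by
  ext σ
  simp only [Finset.mem_filter, mem_stab, key, ky_eq_iff, Finset.mem_erase]
  constructor
  · intro h
    refine ⟨fun r => ?_, ?_⟩
    · rcases h r with h | h
      · exact Or.inl ⟨h.1.2, h.2.1.2, h.2.2⟩
      · exact Or.inr h
    · rcases h r0 with h | h
      · exact (h.2.1.1 rfl).elim
      · exact h
  · rintro ⟨h, h0⟩ r
    rcases eq_or_ne r r0 with rfl | hr
    · exact Or.inr h0
    · rcases h r with h | h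
      · refine Or.inl ⟨⟨fun e => hr (σ.injective (e.trans h0.symm)), h.1⟩, ⟨hr, h.2.1⟩, h.2.2⟩
      · exact Or.inr h

lemma top_QQ (hm : 0 < m) {S : Finset (Fin n)} {r0 : Fin n} (h0 : r0 ∈ S) {pos : Fin n → ℕ}
    (h2 : ∀ ν ∈ S.erase r0, pos ν < (S.erase r0).card) (j : ℕ) :
    top r0 (BB lam m S r0 j) (QQ lam m S (Function.update pos r0 (S.erase r0).card) j) =
      QQ lam m (S.erase r0) pos j := by
  set pos1 := Function.update pos r0 (S.erase r0).card with hpos1
  have hfil : ∀ ν ∈ S.erase r0, S.filter (fun ν' => pos1 ν' < pos1 ν ∧ inR m j (lam ν) (lam ν')) =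
      (S.erase r0).filter (fun ν' => pos ν' < pos ν ∧ inR m j (lam ν) (lam ν')) := by
    intro ν hν
    have hν0 := Finset.ne_of_mem_erase hν
    ext s
    simp only [Finset.mem_filter, Finset.mem_erase, hpos1, Function.update_of_ne hν0]
    rcases eq_or_ne s r0 with rfl | hs
    · have := h2 ν hν
      simp only [Function.update_self, ne_eq, not_true_eq_false, false_and, iff_false]
      omega
    · simp [hs]
  have hb0 : bex lam m S pos1 j r0 = BB lam m S r0 j := by
    simp only [bex, fs_apply, h0, if_true, BB]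
    congr 1
    ext s
    simp only [Finset.mem_filter, Finset.mem_erase, hpos1, Function.update_self]
    rcases eq_or_ne s r0 with rfl | hs
    · simp
    · simp only [Function.update_of_ne hs, ne_eq, hs, not_false_eq_true, true_and]
      constructor
      · rintro ⟨a, _, c⟩; exact ⟨a, c⟩
      · rintro ⟨a, c⟩; exact ⟨a, h2 s (Finset.mem_erase.mpr ⟨hs, a⟩), c⟩
  have hb1 : (bex lam m S pos1 j).erase r0 = bex lam m (S.erase r0) pos j := by
    ext ν
    rcases eq_or_ne ν r0 with rfl | hν
    · simp [bex]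
    · rw [Finsupp.erase_ne hν]
      simp only [bex, fs_apply, Finset.mem_erase, ne_eq, hν, not_false_eq_true, true_and]
      split_ifs with h
      · rw [hfil ν (Finset.mem_erase.mpr ⟨hν, h⟩)]
      · rfl
  rw [QQ, QQ, altK_apply, altK_apply, map_sum, stab_key_erase, Finset.sum_filter]
  refine Finset.sum_congr rfl fun σ hσ => ?_
  rw [map_smul]
  split_ifs with h
  · rw [top_rename h, top_monomial, if_pos hb0, hb1]
  · rw [rename_monomial, top_monomial, if_neg, smul_zero]
    rw [mapDomain_perm_apply]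
    have hne : σ⁻¹ r0 ≠ r0 := fun e => h (by rw [Perm.inv_eq_iff_eq] at e; exact e.symm)
    obtain ⟨h3, h4, h5, h6⟩ := bex_le hm h0 pos1 (mem_stab.mp (inv_mem_stab hσ) r0)
    rw [h6, ← h5]
    apply ne_of_lt
    apply Finset.card_lt_card
    refine ⟨fun s hs => ?_, fun hsub => ?_⟩
    · simp only [Finset.mem_filter, Finset.mem_erase] at hs ⊢
      refine ⟨⟨?_, hs.1⟩, hs.2.2⟩
      rintro rfl
      exact lt_irrefl _ hs.2.1
    · have := hsub (Finset.mem_filter.mpr ⟨Finset.mem_erase.mpr ⟨hne.symm, h0⟩,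
        inR_of_eq hm h4.symm⟩ : r0 ∈ _)
      have h7 := (Finset.mem_filter.mp this).2.1
      have h8 := h2 _ (Finset.mem_erase.mpr ⟨hne, h3⟩)
      rw [hpos1, Function.update_self, Function.update_of_ne hne] at h7
      omega

lemma top_del {S : Finset (Fin n)} (r0 : Fin n) : ∃ c : ℂ, c ≠ 0 ∧
    top r0 (degreeOf r0 (del lam m S)) (del lam m S) = c • del lam m (S.erase r0) := by
  let e0 : Fin n → Fin n → ℕ := fun a b => if a = r0 ∨ b = r0 then EE lam m S a b else 0
  have h1 : del lam m S = vd e0 * del lam m (S.erase r0) := by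
    rw [del, del, ← vd_add]
    apply vd_congr
    intro a b hab
    by_cases h : a = r0 ∨ b = r0
    · have : EE lam m (S.erase r0) a b = 0 := by
        refine Finset.sum_eq_zero fun j _ => if_neg ?_
        rw [key, ky_eq_iff]
        rintro (h' | h')
        · rcases h with rfl | rfl
          · simp at h'
          · simp at h'
        · exact hab.ne h'
      simp [e0, h, this]
    · rw [not_or] at h
      simp only [e0, h.1, h.2, or_self, if_false, zero_add, EE, key, ky_eq_iff, Finset.mem_erase,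
        ne_eq, not_false_eq_true, true_and]
  have h2 : degreeOf r0 (del lam m (S.erase r0)) = 0 := by
    rw [del, degreeOf_vd (EE_symm lam m _)]
    refine Finset.sum_eq_zero fun s hs => Finset.sum_eq_zero fun j _ => if_neg ?_
    rw [key, ky_eq_iff]
    rintro (h' | h')
    · simp at h'
    · exact Finset.ne_of_mem_erase hs h'.symm
  obtain ⟨h3, c, hc, h4⟩ := monicish_vd (r := r0) (e := e0) (fun a b ha hb => by simp [e0, ha, hb])
  refine ⟨c, hc, ?_⟩
  rw [h1, degreeOf_mul_eq h3 (del_ne_zero lam m _), top_mul le_rfl le_rfl, h4,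
    h2, top_zero_of_degreeOf h2, smul_eq_C_mul]

lemma WW_degreeOf {S : Finset (Fin n)} {τ : ℕ} {f : K n} (hf : f ∈ WW lam m S τ) {r : Fin n}
    (hr : r ∈ S) : degreeOf r f ≤ sw lam m S r := by
  rw [degreeOf_le_iff]
  intro β hβ
  have := (hf.2 β hβ r).1 hr
  omega

lemma top_mem_WW {S : Finset (Fin n)} {r0 : Fin n} (h0 : r0 ∈ S) {f : K n}
    (hf : f ∈ WW lam m S (lam r0 + 1)) (d : ℕ) :
    top r0 d f ∈ WW lam m (S.erase r0) (lam r0 + m + 1) := by
  refine ⟨fun r hr s hs e => ?_, fun β hβ r => ?_⟩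
  · rw [← top_rename (swap_apply_of_ne_of_ne (Finset.ne_of_mem_erase hr).symm
      (Finset.ne_of_mem_erase hs).symm),
      hf.1 r (Finset.mem_of_mem_erase hr) s (Finset.mem_of_mem_erase hs) e]
  · rw [mem_support_iff, coeff_top] at hβ
    have h1 : β r0 = 0 := by
      by_contra h
      exact hβ (if_neg h)
    rw [if_pos h1] at hβ
    have h2 := hf.2 _ (mem_support_iff.mpr hβ) r
    rcases eq_or_ne r r0 with rfl | hr
    · simp [h1]
    simp only [Finsupp.add_apply, Finsupp.single_eq_of_ne hr, add_zero] at h2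
    refine ⟨fun h => ?_, fun h => h2.2 fun h' => h (Finset.mem_erase.mpr ⟨hr, h'⟩)⟩
    have h3 := h2.1 (Finset.mem_of_mem_erase h)
    have h4 : sw lam m S r = sw lam m (S.erase r0) r +
        if lam r0 < lam r ∧ lam r ≤ lam r0 + m then 1 else 0 := by
      simp only [sw, Finset.card_filter]
      rw [← Finset.add_sum_erase S _ h0, add_comm]
    split_ifs at h3 h4 ⊢ <;> omega

lemma mem_WW_of_top {S : Finset (Fin n)} {r0 : Fin n} (h0 : r0 ∈ S) {f : K n}
    (hf : f ∈ WW lam m S (lam r0 + 1)) (ht : top r0 (sw lam m S r0) f = 0) :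
    f ∈ WW lam m S (lam r0) := by
  have key0 : ∀ β ∈ f.support, β r0 < sw lam m S r0 := by
    intro β hβ
    have h1 := (hf.2 β hβ r0).1 h0
    rcases (show β r0 ≤ sw lam m S r0 by omega).eq_or_lt with e | e
    · exfalso
      have := coeff_top r0 (sw lam m S r0) f (β.erase r0)
      rw [ht, coeff_zero, if_pos (by simp), ← e, Finsupp.erase_add_single] at this
      exact mem_support_iff.mp hβ this.symm
    · exact e
  refine ⟨hf.1, fun β hβ r => ⟨fun hr => ?_, (hf.2 β hβ r).2⟩⟩
  have h1 := (hf.2 β hβ r).1 hr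
  rcases eq_or_ne (lam r) (lam r0) with e | e
  · have h2 : β.mapDomain (swap r r0) ∈ f.support := by
      rw [← hf.1 r hr r0 h0 e, mem_support_iff, coeff_rename_mapDomain _ (swap r r0).injective]
      exact mem_support_iff.mp hβ
    have h3 := key0 _ h2
    rw [mapDomain_perm_apply, swap_inv, swap_apply_right] at h3
    have h4 : sw lam m S r = sw lam m S r0 := by simp only [sw, e]
    split_ifs <;> omega
  · split_ifs at h1 ⊢ <;> omega

variable (lam m) in
/-- The span of the products of leading coefficients. -/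
noncomputable def PP (S : Finset (Fin n)) (τ : ℕ) : Submodule ℂ (K n) :=
  Submodule.span ℂ {F | ∃ pos, Gam lam m S τ pos ∧ F = ∏ j ∈ range m, QQ lam m S pos j}

lemma PP_mono (S : Finset (Fin n)) (τ : ℕ) : PP lam m S τ ≤ PP lam m S (τ + 1) := by
  refine Submodule.span_mono ?_
  rintro F ⟨pos, ⟨h1, h2, h3, h4⟩, rfl⟩
  exact ⟨pos, ⟨h1, h2, h3, fun ν hν e => (h4 ν hν e).trans (Nat.lt_succ_self _)⟩, rfl⟩

lemma lift_PP (hm : 0 < m) {S : Finset (Fin n)} {r0 : Fin n} (h0 : r0 ∈ S) {G : K n}
    (hG : G ∈ PP lam m (S.erase r0) (lam r0 + m + 1)) :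
    ∃ P ∈ WW lam m S (lam r0 + 1), del lam m S * P ∈ PP lam m S (lam r0 + 1) ∧
      top r0 (degreeOf r0 (del lam m S) + sw lam m S r0) (del lam m S * P) = G := by
  induction hG using Submodule.span_induction with
  | mem G hG =>
    obtain ⟨pos, hpos, rfl⟩ := hG
    have h1 := gam_insert h0 hpos
    obtain ⟨P, hP, e⟩ := exists_quot hm h1
    refine ⟨P, hP, ?_, ?_⟩
    · rw [← e]
      exact Submodule.subset_span ⟨_, h1, rfl⟩
    · rw [← e, ← sum_BB hm h0, top_prod _ (fun j _ => degreeOf_QQ_le hm h0 _ j)]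
      exact Finset.prod_congr rfl fun j _ => top_QQ hm h0 hpos.2.1 j
  | zero => exact ⟨0, Submodule.zero_mem _, by simp, by simp⟩
  | add G G' _ _ h h' =>
    obtain ⟨P, a, b, c⟩ := h
    obtain ⟨P', a', b', c'⟩ := h'
    refine ⟨P + P', Submodule.add_mem _ a a', ?_, ?_⟩
    · rw [mul_add]; exact Submodule.add_mem _ b b'
    · rw [mul_add, map_add, c, c']
  | smul t G _ h =>
    obtain ⟨P, a, b, c⟩ := h
    refine ⟨t • P, Submodule.smul_mem _ _ a, ?_, ?_⟩
    · rw [mul_smul_comm]; exact Submodule.smul_mem _ _ b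
    · rw [mul_smul_comm, map_smul, c]

theorem span_PP (hm : 0 < m) : ∀ (N : ℕ) (S : Finset (Fin n)), S.card = N → ∀ τ : ℕ,
    ∀ f ∈ WW lam m S τ, del lam m S * f ∈ PP lam m S τ := by
  intro N
  induction N with
  | zero =>
    intro S hS τ f hf
    obtain rfl : S = ∅ := Finset.card_eq_zero.mp hS
    have hg : Gam lam m ∅ τ (fun _ => 0) := by simp [Gam]
    have h1 : ∀ g ∈ WW lam m ∅ τ, g = C (coeff 0 g) := by
      intro g hg
      ext β
      rw [coeff_C]
      split_ifs with h
      · rw [h]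
      · by_contra hne
        apply h
        ext r
        exact ((hg.2 β (mem_support_iff.mpr hne) r).2 (by simp)).symm
    have hst : ∀ j, stab (key lam m ∅ j) = {1} := by
      intro j
      ext σ
      simp [mem_stab, key, ky_eq_iff, Equiv.ext_iff]
    have h2 : ∏ j ∈ range m, QQ lam m ∅ (fun _ => 0) j = 1 := by
      refine Finset.prod_eq_one fun j _ => ?_
      have : bex lam m ∅ (fun _ => 0) j = 0 := by ext; simp [bex]
      simp [QQ, altK_apply, hst, this, sg_one]
    have h3 : del lam m ∅ = 1 := by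
      unfold del vd
      refine Finset.prod_eq_one fun r _ => Finset.prod_eq_one fun s hs => ?_
      have : EE lam m ∅ r s = 0 := by
        simp [EE, key, ky_eq_iff, (Finset.mem_Ioi.mp hs).ne]
      rw [this, pow_zero]
    rw [h3, one_mul, h1 f hf, ← mul_one (C _), ← smul_eq_C_mul]
    exact Submodule.smul_mem _ _ (Submodule.subset_span ⟨_, hg, h2.symm⟩)
  | succ N ihN =>
    intro S hS τ
    induction τ with
    | zero =>
      intro f hf
      obtain ⟨r0, h0, hmin⟩ := Finset.exists_min_image S lam (Finset.card_pos.mp (by omega))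
      have h1 : sw lam m S r0 = 0 := by
        rw [sw, Finset.card_eq_zero, Finset.filter_eq_empty_iff]
        intro s hs h
        exact absurd (hmin s hs) (not_le.mpr h.1)
      have : f = 0 := by
        by_contra hne
        obtain ⟨β, hβ⟩ := support_nonempty.mpr hne
        have := (hf.2 β hβ r0).1 h0
        simp [h1] at this
      simp [this]
    | succ τ ih =>
      intro f hf
      by_cases h : ∃ r0 ∈ S, lam r0 = τ
      · obtain ⟨r0, h0, rfl⟩ := h
        obtain ⟨c, hc, hdel⟩ := top_del (lam := lam) (m := m) (S := S) r0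
        have h1 := ihN (S.erase r0) (by rw [Finset.card_erase_of_mem h0]; omega) _ _
          (top_mem_WW h0 hf (sw lam m S r0))
        obtain ⟨P, hP, h2, h3⟩ := lift_PP hm h0 h1
        have h4 : f - c • P ∈ WW lam m S (lam r0 + 1) :=
          Submodule.sub_mem _ hf (Submodule.smul_mem _ _ hP)
        have h5 : top r0 (sw lam m S r0) (f - c • P) = 0 := by
          rw [top_mul le_rfl (WW_degreeOf hP h0), hdel, smul_mul_assoc, ← mul_smul_comm] at h3
          rw [map_sub, map_smul, mul_left_cancel₀ (del_ne_zero lam m _) h3, sub_self]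
        have h6 := PP_mono _ _ (ih _ (mem_WW_of_top h0 h4 h5))
        have : del lam m S * f = del lam m S * (f - c • P) + c • (del lam m S * P) := by
          rw [mul_sub, mul_smul_comm, sub_add_cancel]
        rw [this]
        exact Submodule.add_mem _ h6 (Submodule.smul_mem _ _ h2)
      · refine PP_mono _ _ (ih f ⟨hf.1, fun β hβ r => ⟨fun hr => ?_, (hf.2 β hβ r).2⟩⟩)
        have h1 := (hf.2 β hβ r).1 hr
        have h2 : lam r ≠ τ := fun e => h ⟨r, hr, e⟩
        split_ifs at h1 ⊢ <;> omega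

end Pool.Agent.Lib.MP_ef3722_al
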