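import Pool.Agent.Lib.MP_ef3722_al.Hess
import Pool.Agent.Lib.MP_ef3722_al.Span
import Pool.Agent.Lib.MP_ef3722_al.Div

set_option autoImplicit false

open MvPolynomial Finset Equiv

namespace Pool.Agent.Lib.MP_ef3722_al

variable {n : ℕ}

/-- The alternant of a monomial. -/
noncomputable def altm (a b : Fin n →₀ ℕ) : RR n := Alt (monomial a (monomial b 1))

lemma altm_mapDomain (σ : Perm (Fin n)) (a b : Fin n →₀ ℕ) :
    altm (a.mapDomain σ) (b.mapDomain σ) = sg σ • altm a b := by
  rw [altm, altm, ← Alt_act, act_monomial, rename_monomial]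

lemma Alt_mem_span (u : RR n) : Alt u ∈ Submodule.span ℂ {z | ∃ a b, z = altm a b} := by
  induction u using MvPolynomial.induction_on' with
  | add p q hp hq => rw [map_add]; exact Submodule.add_mem _ hp hq
  | monomial a c =>
    induction c using MvPolynomial.induction_on' with
    | add p q hp hq => rw [map_add, map_add]; exact Submodule.add_mem _ hp hq
    | monomial b t =>
      have : (monomial a (monomial b t) : RR n) = t • monomial a (monomial b 1) := by
        rw [smul_monomial, smul_monomial, smul_eq_mul, mul_one]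
      rw [this, map_smul]
      exact Submodule.smul_mem _ _ (Submodule.subset_span ⟨a, b, rfl⟩)

/-- The span of the products of `m` alternants. -/
noncomputable def GG (n m : ℕ) : Submodule ℂ (RR n) :=
  Submodule.span ℂ {z | ∃ a b : ℕ → Fin n →₀ ℕ, z = ∏ j ∈ range m, altm (a j) (b j)}

lemma prod_Alt_mem_GG (m : ℕ) (u : ℕ → RR n) : ∏ j ∈ range m, Alt (u j) ∈ GG n m := by
  induction m with
  | zero => exact Submodule.subset_span ⟨0, 0, by simp⟩
  | succ m ih =>
    rw [Finset.prod_range_succ]
    have h := Submodule.mul_mem_mul ih (Alt_mem_span (u m))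
    rw [GG, Submodule.span_mul_span] at h
    refine Submodule.span_mono ?_ h
    rintro _ ⟨_, ⟨a, b, rfl⟩, _, ⟨a', b', rfl⟩, rfl⟩
    refine ⟨Function.update a m a', Function.update b m b', ?_⟩
    simp only [Finset.prod_range_succ, Function.update_self]
    congr 1
    refine Finset.prod_congr rfl fun j hj => ?_
    have : j ≠ m := (Finset.mem_range.mp hj).ne
    rw [Function.update_of_ne this, Function.update_of_ne this]

/-- Area sequences of `m`-Dyck paths. -/
def Valid (n m : ℕ) (γ : ℕ → ℕ) : Prop := γ 0 = 0 ∧ ∀ k, k + 1 < n → γ (k + 1) ≤ γ k + m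

/-- First exponents. -/
noncomputable def ga (n m : ℕ) (γ : ℕ → ℕ) (j : ℕ) : Fin n →₀ ℕ := fs fun s => al m j (γ s)

/-- Second exponents. -/
noncomputable def gb (n m : ℕ) (γ : ℕ → ℕ) (j : ℕ) : Fin n →₀ ℕ :=
  fs fun s => ((range n).filter (fun k => s.val < k ∧ inR m j (γ s) (γ k))).card

/-- The span of the conjectured generators and of the decomposable elements. -/
noncomputable def NN (n m : ℕ) : Submodule ℂ (RR n) :=
  Submodule.span ℂ ({z | ∃ γ, Valid n m γ ∧ z = ∏ j ∈ range m, altm (ga n m γ j) (gb n m γ j)} ∪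
    {z | ∃ (a b : ℕ) (c d : ℕ → Fin n →₀ ℕ), (a ≠ 0 ∨ b ≠ 0) ∧
      z = psum n a b * ∏ j ∈ range m, altm (c j) (d j)})

variable {m : ℕ}

lemma psum_mul_mem_NN {a b : ℕ} (hab : a ≠ 0 ∨ b ≠ 0) {g : RR n} (hg : g ∈ GG n m) :
    psum n a b * g ∈ NN n m := by
  induction hg using Submodule.span_induction with
  | mem g hg =>
    obtain ⟨c, d, rfl⟩ := hg
    exact Submodule.subset_span (Or.inr ⟨a, b, c, d, hab, rfl⟩)
  | zero => simp
  | add x y _ _ hx hy => rw [mul_add]; exact Submodule.add_mem _ hx hy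
  | smul t x _ hx => rw [mul_smul_comm]; exact Submodule.smul_mem _ _ hx

lemma prod_update {M : Type*} [CommMonoid M] {α : Type*} (f : ℕ → α → M) (u : ℕ → α) {j0 : ℕ}
    (h : j0 ∈ range m) (v : α) :
    f j0 v * ∏ j ∈ (range m).erase j0, f j (u j) =
      ∏ j ∈ range m, f j (Function.update u j0 v j) := by
  rw [← Finset.mul_prod_erase _ _ h, Function.update_self]
  congr 1
  exact Finset.prod_congr rfl fun j hj => by
    rw [Function.update_of_ne (Finset.ne_of_mem_erase hj)]

lemma NN_le_GG (hm : 0 < m) : NN n m ≤ GG n m := by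
  refine Submodule.span_le.mpr ?_
  rintro z (⟨γ, _, rfl⟩ | ⟨a, b, c, d, _, rfl⟩)
  · exact Submodule.subset_span ⟨_, _, rfl⟩
  · have h0 : 0 ∈ range m := Finset.mem_range.mpr hm
    rw [← Finset.mul_prod_erase _ _ h0, ← mul_assoc, altm,
      ← Alt_mul_of_inv (fun σ => act_psum σ a b)]
    simp only [altm]
    rw [prod_update (fun _ u => Alt u) (fun j => monomial (c j) (monomial (d j) 1)) h0]
    exact prod_Alt_mem_GG _ _

lemma P1_mul_mem_NN {z : RR n} (hz : z ∈ P1 n) {j0 : ℕ} (h : j0 ∈ range m) (u : ℕ → RR n) :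
    z * ∏ j ∈ (range m).erase j0, Alt (u j) ∈ NN n m := by
  induction hz using Submodule.span_induction with
  | mem z hz =>
    obtain ⟨a, b, v, hab, rfl⟩ := hz
    rw [mul_assoc, prod_update (fun _ u => Alt u) u h]
    exact psum_mul_mem_NN hab (prod_Alt_mem_GG _ _)
  | zero => simp
  | add x y _ _ hx hy => rw [add_mul]; exact Submodule.add_mem _ hx hy
  | smul t x _ hx => rw [smul_mul_assoc]; exact Submodule.smul_mem _ _ hx

lemma GG_sym {F : RR n} (hF : F ∈ GG n m) (σ : Perm (Fin n)) : act σ F = sg σ ^ m • F := by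
  induction hF using Submodule.span_induction with
  | mem g hg =>
    obtain ⟨c, d, rfl⟩ := hg
    simp only [map_prod, altm, act_Alt]
    rw [Finset.prod_smul, Finset.prod_const, Finset.card_range]
  | zero => simp
  | add x y _ _ hx hy => rw [map_add, hx, hy, smul_add]
  | smul t x _ hx => rw [map_smul, hx, smul_comm]

lemma GG_mem_DD {F : RR n} (hF : F ∈ GG n m) {r s : Fin n} (h : r ≠ s) : F ∈ DD r s ^ m := by
  induction hF using Submodule.span_induction with
  | mem g hg =>
    obtain ⟨c, d, rfl⟩ := hg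
    have := Ideal.prod_mem_prod (s := range m) (I := fun _ => DD r s)
      (x := fun j => altm (c j) (d j)) (fun j _ => Alt_mem_DD h _)
    rwa [Finset.prod_const, Finset.card_range] at this
  | zero => simp
  | add x y _ _ hx hy => exact Ideal.add_mem _ hx hy
  | smul t x _ hx => exact ((DD r s ^ m).restrictScalars ℂ).smul_mem t hx

section Fixed

variable (m) (lam : Fin n →₀ ℕ)

/-- The exponent of the `j`-th factor. -/
noncomputable def lj (j : ℕ) : Fin n →₀ ℕ := fs fun r => al m j (lam r)

/-- Products of block alternants. -/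
noncomputable def Pi : Submodule ℂ (K n) :=
  Submodule.span ℂ {c | ∃ a : ℕ → K n, c = ∏ j ∈ range m, altK (lj m lam j) (a j)}

/-- Leading coefficients of elements of `NN`. -/
noncomputable def CC : Submodule ℂ (K n) where
  carrier := {c | ∃ F ∈ NN n m, Lead lam F c}
  zero_mem' := ⟨0, Submodule.zero_mem _, Lead.zero _⟩
  add_mem' := by
    rintro c d ⟨F, h1, h2⟩ ⟨G, h3, h4⟩
    exact ⟨F + G, Submodule.add_mem _ h1 h3, h2.add h4⟩
  smul_mem' := by
    rintro t c ⟨F, h1, h2⟩
    exact ⟨t • F, Submodule.smul_mem _ _ h1, h2.smul t⟩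

/-- The symmetric relations. -/
noncomputable def rhoL (i b : ℕ) : K n :=
  ∑ k ∈ univ.filter (fun k => i ≤ lam k), X k ^ (b + if i = 0 then 1 else 0) *
    ∏ l ∈ univ.filter (fun l => lam l < i ∧ i ≤ lam l + m), (X k - X l)

variable {m lam}

lemma sum_lj (hm : 0 < m) : ∑ j ∈ range m, lj m lam j = lam := by
  ext r
  simp [lj, Finsupp.finsetSum_apply, sum_al hm]

lemma lj_mono (hl : Monotone lam) (j : ℕ) : Monotone (lj m lam j) := fun r s h => by
  simp only [lj, fs_apply]
  exact al_mono m j (hl h)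

lemma stab_le_lj {σ : Perm (Fin n)} (hσ : σ ∈ stab lam) (j : ℕ) : σ ∈ stab (lj m lam j) := by
  rw [mem_stab] at *
  intro r
  simp [lj, hσ r]

lemma stab_key_univ (j : ℕ) : stab (key lam m univ j) = stab (lj m lam j) := by
  ext σ
  simp only [mem_stab, key, ky, Finset.mem_univ, if_true, lj, fs_apply]
  exact forall_congr' fun r => by omega

lemma altK_key_univ (j : ℕ) : altK (key lam m univ j) = altK (lj m lam j) := by
  rw [altK, altK, stab_key_univ]

lemma rename_sum_filter {μ : Fin n → ℕ} {σ : Perm (Fin n)} (hσ : σ ∈ stab μ) (p : ℕ → Prop)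
    [DecidablePred p] (f : Fin n → K n) (hf : ∀ k, rename σ (f k) = f (σ k)) :
    rename σ (∑ k ∈ univ.filter (fun k => p (μ k)), f k) =
      ∑ k ∈ univ.filter (fun k => p (μ k)), f k := by
  rw [mem_stab] at hσ
  simp only [map_sum, hf]
  rw [Finset.sum_filter, Finset.sum_filter, ← Equiv.sum_comp σ (fun k => if p (μ k) then f k else 0)]
  simp only [hσ]

lemma rename_prod_filter {μ : Fin n → ℕ} {σ : Perm (Fin n)} (hσ : σ ∈ stab μ) (p : ℕ → Prop)
    [DecidablePred p] (k : Fin n) :
    rename σ (∏ l ∈ univ.filter (fun l => p (μ l)), (X k - X l : K n)) =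
      ∏ l ∈ univ.filter (fun l => p (μ l)), (X (σ k) - X l) := by
  rw [mem_stab] at hσ
  simp only [map_prod, map_sub, rename_X]
  rw [Finset.prod_filter, Finset.prod_filter, ← Equiv.prod_comp σ (fun l => if p (μ l) then (X (σ k) - X l : K n) else 1)]
  simp only [hσ]

lemma rename_rhoL {σ : Perm (Fin n)} (hσ : σ ∈ stab lam) (i b : ℕ) :
    rename σ (rhoL m lam i b) = rhoL m lam i b := by
  refine rename_sum_filter hσ (fun t => i ≤ t) _ fun k => ?_
  rw [map_mul, map_pow, rename_X, rename_prod_filter hσ (fun t => t < i ∧ i ≤ t + m)]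

lemma rename_rho {μ : Fin n → ℕ} {σ : Perm (Fin n)} (hσ : σ ∈ stab μ) (c b : ℕ) :
    rename σ (rho μ c b) = rho μ c b := by
  refine rename_sum_filter hσ (fun t => c < t) _ fun k => ?_
  rw [map_mul, map_pow, rename_X, chi, chi, rename_prod_filter hσ (fun t => t = c)]

lemma exists_block (hm : 0 < m) {i : ℕ} (hi : i ≠ 0) : ∃ j < m, ∃ c, ∀ t,
    (c < al m j t ↔ i ≤ t) ∧ (al m j t = c ↔ t < i ∧ i ≤ t + m) := by
  obtain ⟨j, hj, e⟩ := exists_cut hm (show i - 1 < i by omega) (show i ≤ i - 1 + m by omega)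
  have h1 : al m j i ≠ 0 := by
    intro h
    rw [h] at e
    omega
  obtain ⟨c, hc⟩ := Nat.exists_eq_succ_of_ne_zero h1
  rw [hc, Nat.mul_succ] at e
  refine ⟨j, hj, c, fun t => ⟨?_, ?_⟩⟩
  · rw [al, Nat.lt_iff_add_one_le, Nat.le_div_iff_mul_le hm, add_mul, one_mul, mul_comm c]
    omega
  · rw [al_eq_iff hm, mul_add, mul_one]
    omega

lemma lead_prod (hm : 0 < m) (hl : Monotone lam) (a : ℕ → K n) :
    Lead lam (∏ j ∈ range m, Alt (monomial (lj m lam j) (a j)))
      (∏ j ∈ range m, altK (lj m lam j) (a j)) := by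
  have := Lead.prod (range m) (fun j _ => lead_Alt (lj_mono (m := m) hl j) (a j))
  rwa [sum_lj hm] at this

lemma rhoL_mul_mem (hm : 0 < m) (hl : Monotone lam) (i b : ℕ) {c : K n} (hc : c ∈ Pi m lam) :
    rhoL m lam i b * c ∈ CC m lam := by
  induction hc using Submodule.span_induction with
  | zero => simp
  | add x y _ _ hx hy => rw [mul_add]; exact Submodule.add_mem _ hx hy
  | smul t x _ hx => rw [mul_smul_comm]; exact Submodule.smul_mem _ _ hx
  | mem c hc =>
    obtain ⟨a, rfl⟩ := hc
    rcases eq_or_ne i 0 with rfl | hi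
    · refine ⟨psum n 0 (b + 1) * ∏ j ∈ range m, Alt (monomial (lj m lam j) (a j)),
        psum_mul_mem_NN (Or.inr (Nat.succ_ne_zero b)) (prod_Alt_mem_GG _ _), ?_⟩
      have h1 : Lead 0 (psum n 0 (b + 1)) (rhoL m lam 0 b) := by
        have : psum n 0 (b + 1) = monomial 0 (rhoL m lam 0 b) := by
          simp [psum, rhoL]
        rw [this]
        refine ⟨fun ν hν => ?_, by simp⟩
        rw [Finset.mem_singleton.mp (support_monomial_subset hν)]
        simp
      simpa using h1.mul (lead_prod hm hl a)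
    · obtain ⟨j0, hj0, c, hc⟩ := exists_block hm hi
      have h0 : j0 ∈ range m := Finset.mem_range.mpr hj0
      obtain ⟨F, hF, h1⟩ := exists_rho (lj_mono (m := m) hl j0) c b (a j0)
      refine ⟨_, P1_mul_mem_NN hF h0 (fun j => monomial (lj m lam j) (a j)), ?_⟩
      have h2 := h1.mul (Lead.prod ((range m).erase j0)
        (fun j _ => lead_Alt (lj_mono (m := m) hl j) (a j)))
      rw [Finset.add_sum_erase _ _ h0, sum_lj hm,
        altK_mul_of_inv (fun σ hσ => rename_rho hσ c b), mul_assoc,
        Finset.mul_prod_erase _ (fun j => altK (lj m lam j) (a j)) h0] at h2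
      convert h2 using 2
      simp only [rhoL, rho, chi, lj, fs_apply, hi, if_false, add_zero, (hc _).1, (hc _).2]

lemma pow_sum_mul_mem_Pi (hm : 0 < m) (i b : ℕ) {c : K n} (hc : c ∈ Pi m lam) :
    (∑ k ∈ univ.filter (fun k => i ≤ lam k), X k ^ b) * c ∈ Pi m lam := by
  obtain ⟨j0, h0, h1⟩ : ∃ j0 ∈ range m, ∀ σ ∈ stab (lj m lam j0),
      rename σ (∑ k ∈ univ.filter (fun k => i ≤ lam k), X k ^ b : K n) =
        ∑ k ∈ univ.filter (fun k => i ≤ lam k), X k ^ b := by
    rcases eq_or_ne i 0 with rfl | hi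
    · refine ⟨0, Finset.mem_range.mpr hm, fun σ hσ => ?_⟩
      simpa using rename_sum_filter hσ (fun _ => True) (fun k => X k ^ b) (fun k => by simp)
    · obtain ⟨j0, hj0, c, hc⟩ := exists_block hm hi
      refine ⟨j0, Finset.mem_range.mpr hj0, fun σ hσ => ?_⟩
      have := rename_sum_filter hσ (fun t => c < t) (fun k => X k ^ b) (fun k => by simp)
      simpa only [lj, fs_apply, (hc _).1] using this
  induction hc using Submodule.span_induction with
  | zero => simp
  | add x y _ _ hx hy => rw [mul_add]; exact Submodule.add_mem _ hx hy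
  | smul t x _ hx => rw [mul_smul_comm]; exact Submodule.smul_mem _ _ hx
  | mem c hc =>
    obtain ⟨a, rfl⟩ := hc
    rw [← Finset.mul_prod_erase _ _ h0, ← mul_assoc, ← altK_mul_of_inv h1,
      prod_update (fun j u => altK (lj m lam j) u) a h0]
    exact Submodule.subset_span ⟨_, rfl⟩

lemma block_sum_mul_mem_Pi (hm : 0 < m) (i b : ℕ) {c : K n} (hc : c ∈ Pi m lam) :
    (∑ k ∈ univ.filter (fun k => lam k = i), X k ^ b) * c ∈ Pi m lam := by
  have h := Submodule.sub_mem _ (pow_sum_mul_mem_Pi hm i b hc) (pow_sum_mul_mem_Pi hm (i + 1) b hc)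
  convert h using 1
  rw [← sub_mul]
  congr 1
  simp only [Finset.sum_filter, ← Finset.sum_sub_distrib]
  refine Finset.sum_congr rfl fun k _ => ?_
  split_ifs <;> first | omega | simp

lemma del_mem_Pi : del lam m univ ∈ Pi m lam := by
  refine Submodule.subset_span
    ⟨fun j => ((stab (lj m lam j)).card : ℂ)⁻¹ • vdm (key lam m univ j), ?_⟩
  rw [del_eq_prod]
  refine Finset.prod_congr rfl fun j _ => ?_
  rw [map_smul, altK_of_alt (fun σ hσ => rename_vdm (by rwa [stab_key_univ])), smul_smul,
    inv_mul_cancel₀ (card_stab_ne_zero _), one_smul]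

lemma del_mul_sym_mem_Pi (hm : 0 < m) : ∀ (N : ℕ) (β : Fin n →₀ ℕ), β.support.card = N →
    del lam m univ * ∑ σ ∈ stab lam, rename σ (monomial β 1) ∈ Pi m lam := by
  intro N
  induction N using Nat.strong_induction_on with
  | _ N ih =>
  intro β hβ
  rcases β.support.eq_empty_or_nonempty with h | ⟨k, hk⟩
  · obtain rfl : β = 0 := Finsupp.support_eq_empty.mp h
    simp only [monomial_zero', map_one, Finset.sum_const, mul_smul_comm, mul_one]
    exact Submodule.smul_of_tower_mem _ _ del_mem_Pi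
  have hc : (β.erase k).support.card < N := by
    rw [Finsupp.support_erase, ← hβ]
    exact Finset.card_erase_lt_of_mem hk
  have h1 := block_sum_mul_mem_Pi hm (lam k) (β k) (ih _ hc (β.erase k) rfl)
  let Sy : (Fin n →₀ ℕ) → K n := fun β => ∑ σ ∈ stab lam, rename σ (monomial β 1)
  have h2 : (∑ l ∈ univ.filter (fun l => lam l = lam k), X l ^ β k) *
      (del lam m univ * Sy (β.erase k)) = ∑ l ∈ univ.filter (fun l => lam l = lam k),
        del lam m univ * Sy (Finsupp.single l (β k) + β.erase k) := by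
    rw [mul_left_comm, ← Finset.mul_sum]
    congr 1
    simp only [Sy]
    rw [Finset.sum_comm, Finset.mul_sum]
    refine Finset.sum_congr rfl fun σ hσ => ?_
    rw [← rename_sum_filter hσ (fun t => t = lam k) (fun l => X l ^ β k) (fun l => by simp),
      ← map_mul, Finset.sum_mul, map_sum]
    refine Finset.sum_congr rfl fun l _ => ?_
    rw [X_pow_eq_monomial, monomial_mul, one_mul]
  change _ * (_ * Sy _) ∈ _ at h1
  rw [h2, ← Finset.sum_filter_add_sum_filter_not _ (fun l => l ∈ (β.erase k).support)] at h1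
  have h3 : ∑ l ∈ (univ.filter (fun l => lam l = lam k)).filter
      (fun l => l ∈ (β.erase k).support),
        del lam m univ * Sy (Finsupp.single l (β k) + β.erase k) ∈ Pi m lam := by
    refine Submodule.sum_mem _ fun l hl => ih _ (lt_of_le_of_lt (Finset.card_le_card ?_) hc) _ rfl
    refine Finsupp.support_add.trans (Finset.union_subset ?_ le_rfl)
    exact Finsupp.support_single_subset.trans
      (Finset.singleton_subset_iff.mpr (Finset.mem_filter.mp hl).2)
  have h4 := Submodule.sub_mem _ h1 h3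
  rw [add_sub_cancel_left, Finset.sum_congr rfl (g := fun _ => del lam m univ * Sy β),
    Finset.sum_const, ← Nat.cast_smul_eq_nsmul ℂ] at h4
  · refine (Submodule.smul_mem_iff _ ?_).mp h4
    exact Nat.cast_ne_zero.mpr (Finset.card_pos.mpr ⟨k, by simp⟩).ne'
  · intro l hl
    simp only [Finset.mem_filter, Finset.mem_univ, true_and, Finsupp.mem_support_iff,
      not_not] at hl
    congr 1
    simp only [Sy]
    rw [← sum_stab_mul_right (swap_mem_stab hl.1) (fun σ => rename σ (monomial β 1))]
    refine Finset.sum_congr rfl fun σ _ => ?_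
    rw [rename_perm_mul, rename_monomial (swap l k)]
    congr 3
    ext r
    rw [mapDomain_perm_apply, swap_inv]
    rcases eq_or_ne r l with rfl | h5
    · simp [hl.2]
    rcases eq_or_ne r k with rfl | h6
    · have := hl.2
      rw [Finsupp.erase_ne h5.symm] at this
      simp [this, Finsupp.single_eq_of_ne h5]
    simp [swap_apply_of_ne_of_ne h5 h6, Finsupp.single_eq_of_ne h5, Finsupp.erase_ne h6]

lemma del_mul_mem_Pi (hm : 0 < m) {h : K n} (hh : ∀ σ ∈ stab lam, rename σ h = h) :
    del lam m univ * h ∈ Pi m lam := by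
  have h1 : ∀ f : K n, del lam m univ * ∑ σ ∈ stab lam, rename σ f ∈ Pi m lam := by
    intro f
    induction f using MvPolynomial.induction_on' with
    | add p q hp hq =>
      simp only [map_add, Finset.sum_add_distrib, mul_add]
      exact Submodule.add_mem _ hp hq
    | monomial β c =>
      have : (monomial β c : K n) = c • monomial β 1 := by
        rw [smul_monomial, smul_eq_mul, mul_one]
      simp only [this, map_smul, ← Finset.smul_sum, mul_smul_comm]
      exact Submodule.smul_mem _ _ (del_mul_sym_mem_Pi hm _ β rfl)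
  have h2 := h1 h
  rw [Finset.sum_congr rfl hh, Finset.sum_const, ← Nat.cast_smul_eq_nsmul ℂ, mul_smul_comm] at h2
  exact (Submodule.smul_mem_iff _ (card_stab_ne_zero _)).mp h2

lemma exists_valid {pos : Fin n → ℕ} (h : Gam lam m univ 1 pos) :
    ∃ (γ : ℕ → ℕ) (e : Perm (Fin n)), Valid n m γ ∧ ∀ j, ga n m γ j = (lj m lam j).mapDomain e ∧
      gb n m γ j = (bex lam m univ pos j).mapDomain e := by
  obtain ⟨h1, h2, h3, h4⟩ := h
  simp only [Finset.card_univ, Fintype.card_fin, Finset.mem_univ, true_imp_iff,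
    Finset.coe_univ] at h1 h2 h3 h4
  let f : Fin n → Fin n := fun ν => ⟨n - 1 - pos ν, by have := h2 ν; omega⟩
  have hf : Function.Injective f := by
    intro a b e
    have e' : n - 1 - pos a = n - 1 - pos b := congrArg Fin.val e
    have := h2 a
    have := h2 b
    exact h1 (Set.mem_univ a) (Set.mem_univ b) (by omega)
  let e : Perm (Fin n) := Equiv.ofBijective f (Finite.injective_iff_bijective.mp hf)
  have he : ∀ ν, (e ν).val = n - 1 - pos ν := fun _ => rfl
  have he' : ∀ s : Fin n, s.val = n - 1 - pos (e⁻¹ s) := fun s => by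
    rw [← he]; simp
  let γ : ℕ → ℕ := fun k => if h : k < n then lam (e⁻¹ ⟨k, h⟩) else 0
  have hγ : ∀ s : Fin n, γ s = lam (e⁻¹ s) := fun s => by simp [γ]
  refine ⟨γ, e, ⟨?_, fun k hk => ?_⟩, fun j => ⟨?_, ?_⟩⟩
  · simp only [γ]
    split_ifs with h
    · have a := he' ⟨0, h⟩
      have b := h2 (e⁻¹ ⟨0, h⟩)
      have c := h4 (e⁻¹ ⟨0, h⟩) (by simp only at a; omega)
      omega
    · rfl
  · have hk' : k < n := by omega
    have a := he' ⟨k, hk'⟩
    have a' := he' ⟨k + 1, hk⟩
    simp only [γ, hk, hk', dif_pos]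
    apply h3
    simp only at a a'
    have := h2 (e⁻¹ ⟨k, hk'⟩)
    omega
  · ext s
    simp [ga, lj, hγ]
  · ext s
    simp only [gb, bex, mapDomain_perm_apply, fs_apply, Finset.mem_univ, if_true, hγ]
    symm
    refine Finset.card_bij (fun ν _ => (e ν).val) (fun ν hν => ?_) (fun a _ b _ hab => ?_)
      (fun k hk => ?_)
    · simp only [Finset.mem_filter, Finset.mem_univ, true_and, Finset.mem_range, hγ] at hν ⊢
      refine ⟨(e ν).2, ?_, by simpa using hν.2⟩
      have := h2 (e⁻¹ s)
      rw [he, he' s]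
      omega
    · exact e.injective (Fin.ext hab)
    · simp only [Finset.mem_filter, Finset.mem_range] at hk
      refine ⟨e⁻¹ ⟨k, hk.1⟩, ?_, by simp⟩
      simp only [Finset.mem_filter, Finset.mem_univ, true_and]
      refine ⟨?_, by rw [← hγ ⟨k, hk.1⟩]; exact hk.2.2⟩
      have a := he' ⟨k, hk.1⟩
      have b := he' s
      simp only at a
      omega

lemma PP_le_CC (hm : 0 < m) (hl : Monotone lam) : PP lam m univ 1 ≤ CC m lam := by
  refine Submodule.span_le.mpr ?_
  rintro _ ⟨pos, hpos, rfl⟩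
  obtain ⟨γ, e, hγ, he⟩ := exists_valid hpos
  refine ⟨_, ?_, by
    simpa only [QQ, altK_key_univ] using
      lead_prod hm hl (fun j => monomial (bex lam m univ pos j) 1)⟩
  have h1 : ∏ j ∈ range m, altm (ga n m γ j) (gb n m γ j) ∈ NN n m :=
    Submodule.subset_span (Or.inl ⟨γ, hγ, rfl⟩)
  simp only [(he _).1, (he _).2, altm_mapDomain] at h1
  rw [Finset.prod_smul] at h1
  exact (Submodule.smul_mem_iff _ (Finset.prod_ne_zero_iff.mpr fun _ _ => sg_ne_zero e)).mp h1

lemma exists_quot_alt (u : K n) :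
    ∃ h, vdm lam * h = altK lam u ∧ ∀ σ ∈ stab lam, rename σ h = h := by
  obtain ⟨h, hh⟩ := vdm_dvd_of_alt (μ := lam) (f := altK lam u) fun σ hσ => rename_altK hσ u
  exact ⟨h, hh.symm, fun σ hσ => inv_of_mul (sg_ne_zero σ) (vdm_ne_zero _) (rename_vdm hσ)
    (by rw [← hh]; exact rename_altK hσ u)⟩

variable (m lam) in
/-- Polynomials whose antisymmetrisation gives a leading coefficient. -/
noncomputable def LL : Submodule ℂ (K n) where
  carrier := {u | ∃ h, vdm lam * h = altK lam u ∧ del lam m univ * h ∈ CC m lam}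
  zero_mem' := ⟨0, by simp, by simp⟩
  add_mem' := by
    rintro c d ⟨F, h1, h2⟩ ⟨G, h3, h4⟩
    exact ⟨F + G, by rw [mul_add, map_add, h1, h3], by
      rw [mul_add]; exact Submodule.add_mem _ h2 h4⟩
  smul_mem' := by
    rintro t c ⟨F, h1, h2⟩
    exact ⟨t • F, by rw [mul_smul_comm, map_smul, h1], by
      rw [mul_smul_comm]; exact Submodule.smul_mem _ _ h2⟩

lemma rhoL_mul_mem_LL (hm : 0 < m) (hl : Monotone lam) (i b : ℕ) (u : K n) :
    rhoL m lam i b * u ∈ LL m lam := by
  obtain ⟨h, h1, h2⟩ := exists_quot_alt (lam := lam) u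
  refine ⟨rhoL m lam i b * h, ?_, ?_⟩
  · rw [altK_mul_of_inv (fun σ hσ => rename_rhoL hσ i b), ← h1, mul_left_comm]
  · rw [mul_left_comm]
    exact rhoL_mul_mem hm hl i b (del_mul_mem_Pi hm h2)

lemma rhoL_poly_mem_LL (hm : 0 < m) (hl : Monotone lam) (i : ℕ) (g : Polynomial (K n))
    (u : K n) : (∑ k ∈ univ.filter (fun k => i ≤ lam k), g.eval (X k) *
      (X k ^ (if i = 0 then 1 else 0) *
        ∏ l ∈ univ.filter (fun l => lam l < i ∧ i ≤ lam l + m), (X k - X l))) * u ∈ LL m lam := by
  induction g using Polynomial.induction_on' with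
  | add p q hp hq =>
    simp only [Polynomial.eval_add, add_mul, Finset.sum_add_distrib]
    exact Submodule.add_mem _ hp hq
  | monomial b c =>
    have := rhoL_mul_mem_LL hm hl i b (c * u)
    convert this using 1
    rw [← mul_assoc, mul_comm _ c]
    simp only [rhoL, Polynomial.eval_monomial, Finset.mul_sum, pow_add, mul_assoc]

lemma HI_mem_LL (hm : 0 < m) (hl : Monotone lam) {z : K n}
    (hz : z ∈ HI lam m univ (univ.filter (fun k => lam k = 0))) : z ∈ LL m lam := by
  suffices ∀ u, z * u ∈ LL m lam by simpa using this 1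
  induction hz using Submodule.span_induction with
  | zero => simp
  | add x y _ _ hx hy => intro u; rw [add_mul]; exact Submodule.add_mem _ (hx u) (hy u)
  | smul t x _ hx => intro u; rw [smul_eq_mul, mul_comm t, mul_assoc]; exact hx _
  | mem z hz =>
    rcases hz with ⟨k, _, b, rfl⟩ | ⟨j, hj, _⟩
    · intro u
      have := rhoL_poly_mem_LL hm hl (lam k) (Polynomial.X ^ b *
        ∏ l ∈ univ.filter (fun l => l < k ∧ lam l = lam k), (Polynomial.X - Polynomial.C (X l))) u
      convert this using 2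
      have hOm : Om lam m univ k = univ.filter (fun l => l < k ∧ lam l = lam k) ∪
          univ.filter (fun l => lam l < lam k ∧ lam k ≤ lam l + m) := by
        ext l
        simp only [Om, Finset.mem_filter, Finset.mem_univ, true_and, Finset.mem_union]
        constructor
        · rintro ⟨h1, h2⟩
          rcases (hl h1.le).eq_or_lt with h | h
          · exact Or.inl ⟨h1, h⟩
          · exact Or.inr ⟨h, h2⟩
        · rintro (⟨h1, h2⟩ | ⟨h1, h2⟩)
          · exact ⟨h1, by omega⟩
          · exact ⟨hl.reflect_lt h1, h2⟩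
      have hdis : Disjoint (univ.filter (fun l => l < k ∧ lam l = lam k))
          (univ.filter (fun l => lam l < lam k ∧ lam k ≤ lam l + m)) := by
        rw [Finset.disjoint_filter]
        intro l _ h1 h2
        omega
      rw [rel]
      refine Finset.sum_subset_zero_on_sdiff (fun k' hk' => ?_) (fun k' hk' => ?_)
        (fun k' _ => ?_)
      · simp only [Finset.mem_filter, Finset.mem_univ, true_and] at hk' ⊢
        exact hl hk'
      · simp only [Finset.mem_sdiff, Finset.mem_filter, Finset.mem_univ, true_and, not_le] at hk'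
        rw [Polynomial.eval_mul, Polynomial.eval_prod, Finset.prod_eq_zero (i := k')]
        · simp
        · simp only [Finset.mem_filter, Finset.mem_univ, true_and]
          exact ⟨hk'.2, le_antisymm (hl hk'.2.le) hk'.1⟩
        · simp
      · rw [hOm, Finset.prod_union hdis]
        simp only [Finset.mem_filter, Finset.mem_univ, true_and, Polynomial.eval_mul,
          Polynomial.eval_pow, Polynomial.eval_X, Polynomial.eval_prod, Polynomial.eval_sub,
          Polynomial.eval_C, pow_add]
        ring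
    · exact (hj (Finset.mem_univ j)).elim

lemma Mon_le_LL (hm : 0 < m) (hl : Monotone lam) :
    Mon lam m univ (univ.filter (fun k => lam k = 0)) ≤ LL m lam := by
  refine Submodule.span_le.mpr ?_
  rintro _ ⟨a, ha, _, rfl⟩
  obtain ⟨h, h1, h2⟩ := exists_quot_alt (lam := lam) (monomial a 1)
  refine ⟨h, h1, PP_le_CC hm hl (span_PP hm _ _ rfl _ _ ⟨fun r _ s _ e => h2 _ (swap_mem_stab e),
    fun β hβ r => ⟨fun _ => ?_, fun hr => (hr (Finset.mem_univ r)).elim⟩⟩)⟩
  have h0 : h ≠ 0 := by rintro rfl; simp at hβ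
  have h3 := monomial_le_degreeOf r hβ
  have h4 := degreeOf_mul_eq (n := r) (vdm_ne_zero lam) h0
  rw [h1, degreeOf_vdm] at h4
  have h5 : ∀ ν, lam ν = lam r → a ν + (if 1 ≤ lam r then 1 else 0) ≤
      sw lam m univ r + ((univ.erase r).filter (fun s => lam s = lam r)).card := by
    intro ν hν
    have h6 := ha ν (Finset.mem_univ ν)
    have h7 : Om lam m univ ν ⊆ univ.filter (fun s => lam s < lam r ∧ lam r ≤ lam s + m) ∪
        (univ.filter (fun s => lam s = lam r)).erase ν := by
      intro s hs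
      simp only [Om, Finset.mem_filter, Finset.mem_univ, true_and, Finset.mem_union,
        Finset.mem_erase] at hs ⊢
      rcases (hl hs.1.le).eq_or_lt with h | h
      · exact Or.inr ⟨hs.1.ne, h.trans hν⟩
      · exact Or.inl ⟨hν ▸ h, hν ▸ hs.2⟩
    have h8 := (Finset.card_le_card h7).trans (Finset.card_union_le _ _)
    rw [Finset.card_erase_of_mem (by simp [hν])] at h8
    rw [Finset.filter_erase, Finset.card_erase_of_mem (by simp), sw]
    simp only [Finset.mem_filter, Finset.mem_univ, true_and, hν] at h6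
    split_ifs at h6 ⊢ <;> omega
  have h9 := h5 r rfl
  have h10 := degreeOf_altK_monomial (μ := lam) (b := a) (r := r)
    (d := sw lam m univ r + ((univ.erase r).filter (fun s => lam s = lam r)).card -
      (if 1 ≤ lam r then 1 else 0)) (fun ν hν => by have := h5 ν hν; omega)
  omega

lemma del_mul_mem_CC (hm : 0 < m) (hl : Monotone lam) {h : K n}
    (hh : ∀ σ ∈ stab lam, rename σ h = h) : del lam m univ * h ∈ CC m lam := by
  obtain ⟨g, hg, hz⟩ := hess m hl _ univ rfl _ (univ.filter (fun k => lam k = 0)) rfl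
    (Finset.subset_univ _) (fun k hk j _ hjk => by
      simp only [Finset.mem_filter, Finset.mem_univ, true_and] at hk ⊢
      have := hl hjk
      omega) (vdm lam * h)
  have h1 := Submodule.add_mem _ (HI_mem_LL hm hl hz) (Mon_le_LL hm hl hg)
  rw [sub_add_cancel] at h1
  obtain ⟨h', h2, h3⟩ := h1
  rw [altK_of_alt (fun σ hσ => by rw [map_mul, hh σ hσ, rename_vdm hσ, smul_mul_assoc]),
    ← mul_smul_comm] at h2
  rw [mul_left_cancel₀ (vdm_ne_zero _) h2, mul_smul_comm] at h3
  exact (Submodule.smul_mem_iff _ (card_stab_ne_zero _)).mp h3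

end Fixed

lemma exists_lead (hm : 0 < m) {F : RR n} (hF : F ∈ GG n m) {lam : Fin n →₀ ℕ}
    (hl : lam ∈ F.support) (hmin : ∀ ν ∈ F.support, toLex lam ≤ toLex ν) :
    coeff lam F ∈ CC m lam := by
  have hsym := GG_sym hF
  have hmono := min_monotone hsym hl hmin
  have hd : del lam m univ ∣ coeff lam F := by
    refine vd_dvd fun r s hrs => ?_
    refine (pow_dvd_pow _ ?_).trans (min_coeff_dvd hsym hmin hrs (GG_mem_DD hF hrs.ne))
    refine le_trans (le_of_eq ?_) (sum_al_eq_le hm (hmono hrs.le))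
    simp [EE, key, ky_eq_iff, hrs.ne]
  obtain ⟨h, hh⟩ := hd
  rw [hh]
  refine del_mul_mem_CC hm hmono fun σ hσ => ?_
  refine inv_of_mul (pow_ne_zero m (sg_ne_zero σ)) (del_ne_zero lam m univ)
    (rename_del fun j => ?_) (by rw [← hh]; exact min_coeff_sym hsym hσ)
  rw [stab_key_univ]
  exact stab_le_lj hσ j

theorem GG_le_NN (hm : 0 < m) : GG n m ≤ NN n m := by
  intro F hF
  let D := F.support.sup (fun ν => ∑ r, ν r)
  let U : Finset (Fin n →₀ ℕ) := (Finset.Icc 0 (fs fun _ => D)).filter (fun ν => ∑ r, ν r ≤ D)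
  have hU : ∀ ν, ν ∈ U ↔ ∑ r, ν r ≤ D := by
    intro ν
    simp only [U, Finset.mem_filter, Finset.mem_Icc, and_iff_right_iff_imp]
    intro h
    refine ⟨bot_le, fun r => ?_⟩
    rw [fs_apply]
    exact (Finset.single_le_sum (fun _ _ => Nat.zero_le _) (Finset.mem_univ r)).trans h
  have key : ∀ k, ∀ F ∈ GG n m, F.support ⊆ U →
      (U.filter (fun μ => ∃ ν ∈ F.support, toLex ν ≤ toLex μ)).card = k → F ∈ NN n m := by
    intro k
    induction k using Nat.strong_induction_on with
    | _ k ih =>
    intro F hF hFU hk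
    rcases eq_or_ne F 0 with rfl | h0
    · exact Submodule.zero_mem _
    obtain ⟨lam, hl, hmin⟩ := Finset.exists_min_image F.support toLex (support_nonempty.mpr h0)
    obtain ⟨F', h1, h2, h3⟩ := exists_lead hm hF hl hmin
    have h4 : ∀ ν ∈ (F - F').support, ν ∈ U ∧ toLex lam < toLex ν := by
      intro ν hν
      have h5 : ν ≠ lam := by
        rintro rfl
        exact mem_support_iff.mp hν (by rw [coeff_sub, h3, sub_self])
      have h6 : toLex lam ≠ toLex ν := fun e => h5 (toLex.injective e).symm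
      rcases Finset.mem_union.mp (support_sub _ _ _ hν) with h | h
      · exact ⟨hFU h, lt_of_le_of_ne (hmin ν h) h6⟩
      · exact ⟨(hU ν).mpr ((h2 ν h).2.trans_le ((hU lam).mp (hFU hl))),
          lt_of_le_of_ne (h2 ν h).1 h6⟩
    have h5 := ih _ ?_ (F - F') (Submodule.sub_mem _ hF (NN_le_GG hm h1))
      (fun ν hν => (h4 ν hν).1) rfl
    · simpa using Submodule.add_mem _ h5 h1
    · rw [← hk]
      refine Finset.card_lt_card ⟨fun μ hμ => ?_, fun h => ?_⟩
      · obtain ⟨a, ν, b, c⟩ := Finset.mem_filter.mp hμ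
        exact Finset.mem_filter.mpr ⟨a, lam, hl, ((h4 ν b).2.trans_le c).le⟩
      · obtain ⟨_, ν, b, c⟩ := Finset.mem_filter.mp
          (h (Finset.mem_filter.mpr ⟨hFU hl, lam, hl, le_rfl⟩))
        exact absurd ((h4 ν b).2.trans_le c) (lt_irrefl _)
  exact key _ F hF (fun ν hν => (hU ν).mpr (Finset.le_sup (f := fun ν => ∑ r, ν r) hν)) rfl

end Pool.Agent.Lib.MP_ef3722_al
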