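import Pool.Agent.Lib.MP_ef3722_al.Main

set_option autoImplicit false

open MvPolynomial Finset Equiv

namespace Pool.Agent.Lib.MP_ef3722_al

/-- Heights of the columns of the path with area sequence `γ`. -/
def ht (n m : ℕ) (γ : ℕ → ℕ) (i : ℕ) : ℕ := ((range n).filter (fun k => m * k - γ k ≤ i)).card

variable {n m : ℕ} {γ : ℕ → ℕ}

lemma Valid.le (h : Valid n m γ) : ∀ k < n, γ k ≤ m * k := by
  intro k
  induction k with
  | zero => intro _; simp [h.1]
  | succ k ih =>
    intro hk
    have := h.2 k hk
    have := ih (by omega)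
    rw [Nat.mul_succ]
    omega

lemma Valid.mono (h : Valid n m γ) {k k' : ℕ} (hk : k ≤ k') (hk' : k' < n) :
    m * k - γ k ≤ m * k' - γ k' := by
  induction k', hk using Nat.le_induction with
  | base => exact le_rfl
  | succ k' _ ih =>
    have := ih (by omega)
    have := h.2 k' hk'
    rw [Nat.mul_succ]
    omega

lemma Valid.ht_le_iff (h : Valid n m γ) {k : ℕ} (hk : k < n) (i : ℕ) :
    ht n m γ i ≤ k ↔ i < m * k - γ k := by
  constructor
  · intro h1
    by_contra h2
    have : range (k + 1) ⊆ (range n).filter (fun k => m * k - γ k ≤ i) := by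
      intro k' hk'
      rw [Finset.mem_range] at hk'
      have := h.mono (show k' ≤ k by omega) hk
      exact Finset.mem_filter.mpr ⟨Finset.mem_range.mpr (by omega), by omega⟩
    have := Finset.card_le_card this
    rw [Finset.card_range] at this
    unfold ht at h1
    omega
  · intro h1
    have : (range n).filter (fun k => m * k - γ k ≤ i) ⊆ range k := by
      intro k' hk'
      rw [Finset.mem_filter, Finset.mem_range] at hk'
      rw [Finset.mem_range]
      by_contra h2
      have := h.mono (not_lt.mp h2) hk'.1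
      omega
    exact (Finset.card_le_card this).trans_eq (Finset.card_range k)

lemma ht_mono {i i' : ℕ} (h : i ≤ i') : ht n m γ i ≤ ht n m γ i' :=
  Finset.card_le_card fun k hk => by
    rw [Finset.mem_filter] at hk ⊢
    exact ⟨hk.1, hk.2.trans h⟩

lemma ht_le (i : ℕ) : ht n m γ i ≤ n :=
  (Finset.card_le_card (Finset.filter_subset _ _)).trans_eq (Finset.card_range n)

lemma Valid.lt_ht (h : Valid n m γ) {i : ℕ} (hi : i < m * n) : i + 1 ≤ m * ht n m γ i := by
  rcases (ht_le (n := n) (m := m) (γ := γ) i).eq_or_lt with e | e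
  · rw [e]; exact hi
  · have := (h.ht_le_iff e i).mp le_rfl
    omega

lemma Valid.card_ht (h : Valid n m γ) {k : ℕ} (hk : k < n) :
    ((range (m * n)).filter (fun i => ht n m γ i ≤ k)).card = m * k - γ k := by
  have : (range (m * n)).filter (fun i => ht n m γ i ≤ k) = range (m * k - γ k) := by
    ext i
    simp only [Finset.mem_filter, Finset.mem_range, h.ht_le_iff hk, and_iff_right_iff_imp]
    have := Nat.mul_le_mul_left m hk.le
    omega
  rw [this, Finset.card_range]

/-- First exponent in the statement. -/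
def fa (n m : ℕ) (h : ℕ → ℕ) (j : ℕ) (s : Fin n) : ℕ :=
  h (j + m * s.val) - (j + m * s.val + m) / m

/-- Second exponent in the statement. -/
def fb (n m : ℕ) (h : ℕ → ℕ) (j : ℕ) (s : Fin n) : ℕ :=
  ((Finset.range n).filter (fun k : ℕ =>
    h (j + m * s.val) ≤ k ∧
    m * (k - h (j + m * s.val)) ≤
      ((Finset.range (m * n)).filter (fun i' : ℕ => h i' ≤ k)).card - (j + m * s.val + 1) ∧
    ((Finset.range (m * n)).filter (fun i' : ℕ => h i' ≤ k)).card
      - (j + m * s.val + 1) ≤ m * (k - h (j + m * s.val) + 1))).card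

lemma exists_match (h : Valid n m γ) {j : ℕ} (hj : j < m) (s : Fin n) :
    ∃ ν, ν < ht n m γ (j + m * s.val) ∧ al m j (γ ν) = fa n m (ht n m γ) j s ∧
      ht n m γ (j + m * s.val) = fa n m (ht n m γ) j s + (s.val + 1) ∧
      ∀ k, ν < k → k < ht n m γ (j + m * s.val) →
        m * (fa n m (ht n m γ) j s + 1) ≤ γ k + j := by
  have hm : 0 < m := by omega
  have hi : j + m * s.val < m * n := by
    have := Nat.mul_le_mul_left m (Nat.succ_le_of_lt s.2)
    rw [Nat.mul_succ] at this
    omega
  have h1 := h.lt_ht hi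
  have h2 : (j + m * s.val + m) / m = s.val + 1 := by
    rw [add_assoc, ← Nat.mul_succ, Nat.add_mul_div_left _ _ hm, Nat.div_eq_of_lt hj, zero_add]
  set H := ht n m γ (j + m * s.val) with hH
  have hHn : H ≤ n := ht_le _
  have h3 : s.val < H := by
    by_contra h'
    have := Nat.mul_le_mul_left m (not_lt.mp h')
    omega
  have ha : fa n m (ht n m γ) j s = H - (s.val + 1) := by rw [fa, h2]
  set a := fa n m (ht n m γ) j s
  have h4 : H = a + (s.val + 1) := by omega
  have h5 : m * H = m * a + m * s.val + m := by rw [h4]; ring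
  have hne : ((range H).filter (fun k => γ k + j < m * (a + 1))).Nonempty := by
    refine ⟨0, Finset.mem_filter.mpr ⟨Finset.mem_range.mpr (by omega), ?_⟩⟩
    rw [h.1, mul_add]
    omega
  obtain ⟨ν, hν, hmax⟩ := Finset.exists_max_image _ id hne
  rw [Finset.mem_filter, Finset.mem_range] at hν
  have h6 : ∀ k, ν < k → k < H → m * (a + 1) ≤ γ k + j := by
    intro k h7 h8
    by_contra h9
    have := hmax k (Finset.mem_filter.mpr ⟨Finset.mem_range.mpr h8, not_le.mp h9⟩)
    simp only [id] at this
    omega
  refine ⟨ν, hν.1, (al_eq_iff hm).mpr ⟨?_, hν.2⟩, h4, h6⟩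
  rcases (Nat.succ_le_of_lt hν.1).eq_or_lt with e | e
  · have h7 := (h.ht_le_iff (show ν < n by omega) (j + m * s.val)).not.mp (by omega)
    have h8 : m * H = m * ν + m := by rw [← e, Nat.mul_succ]
    omega
  · have h7 := h6 (ν + 1) (by omega) e
    have h8 := h.2 ν (by omega)
    rw [mul_add, mul_one] at h7
    omega

lemma exists_perm (h : Valid n m γ) {j : ℕ} (hj : j < m) : ∃ σ : Perm (Fin n),
    fs (fa n m (ht n m γ) j) = (ga n m γ j).mapDomain σ ∧
      fs (fb n m (ht n m γ) j) = (gb n m γ j).mapDomain σ := by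
  choose ν h1 h2 h3 h4 using exists_match h hj
  let f : Fin n → Fin n := fun s => ⟨ν s, (h1 s).trans_le (ht_le _)⟩
  have key : ∀ s s' : Fin n, s < s' → ν s ≠ ν s' := by
    intro s s' hs e
    have a1 : fa n m (ht n m γ) j s = fa n m (ht n m γ) j s' := by rw [← h2, ← h2, e]
    have a2 := h3 s
    have a3 := h3 s'
    have a4 : s.val < s'.val := hs
    have a5 : ht n m γ (j + m * s'.val) ≤ n := ht_le _
    have a6 := h4 s' (ht n m γ (j + m * s.val)) (e ▸ h1 s) (by omega)
    have a7 := (h.ht_le_iff (show ht n m γ (j + m * s.val) < n by omega) (j + m * s.val)).mp le_rfl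
    have a8 : m * ht n m γ (j + m * s.val) = m * (fa n m (ht n m γ) j s' + 1) + m * s.val := by
      rw [a2, a1]; ring
    omega
  have hf : Function.Injective f := by
    intro s s' e
    have e' : ν s = ν s' := congrArg Fin.val e
    rcases lt_trichotomy s s' with h' | h' | h'
    · exact (key s s' h' e').elim
    · exact h'
    · exact (key s' s h' e'.symm).elim
  let e : Perm (Fin n) := Equiv.ofBijective f (Finite.injective_iff_bijective.mp hf)
  have he : ∀ s, (e s).val = ν s := fun _ => rfl
  refine ⟨e⁻¹, ?_, ?_⟩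
  · ext s
    rw [mapDomain_perm_apply, inv_inv, ga, fs_apply, fs_apply, he, h2]
  · ext s
    rw [mapDomain_perm_apply, inv_inv, gb, fs_apply, fs_apply, he, fb]
    congr 1
    refine Finset.filter_congr fun k hk => ?_
    rw [Finset.mem_range] at hk
    have a1 := h1 s
    have a2 := h3 s
    have a3 := h4 s k
    have a4 := h.ht_le_iff hk (j + m * s.val)
    have a5 := h.le k hk
    rw [h.card_ht hk, inR, h2]
    set H := ht n m γ (j + m * s.val)
    set a := fa n m (ht n m γ) j s
    have a6 : m * H = m * a + m * s.val + m := by rw [a2]; ring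
    rw [mul_add m (k - H), mul_add m a, mul_one, Nat.mul_sub] at *
    by_cases hk' : H ≤ k
    · have := Nat.mul_le_mul_left m hk'
      have := a4.mp hk'
      omega
    · omega

end Pool.Agent.Lib.MP_ef3722_al
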