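import Pool.Agent.Lib.MP_ef3722_al.Basic

set_option autoImplicit false

open MvPolynomial Finset Equiv

namespace Pool.Agent.Lib.MP_ef3722_al

variable {n : ℕ}

/-- A function on `Fin n` as a finitely supported function. -/
noncomputable def fs (f : Fin n → ℕ) : Fin n →₀ ℕ := Finsupp.equivFunOnFinite.symm f

@[simp] lemma fs_apply (f : Fin n → ℕ) (r : Fin n) : fs f r = f r := by simp [fs]

/-- Viewing a polynomial as a polynomial in one distinguished variable. -/
noncomputable def ev (r : Fin n) : K n →ₐ[ℂ] Polynomial (K n) :=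
  aeval (fun k => if k = r then Polynomial.X else Polynomial.C (X k))

lemma ev_monomial (r : Fin n) (β : Fin n →₀ ℕ) (c : ℂ) :
    ev r (monomial β c) = Polynomial.monomial (β r) (monomial (β.erase r) c) := by
  conv_lhs => rw [← Finsupp.single_add_erase r β, ← one_mul c, ← monomial_mul, map_mul]
  have h1 : ev r (monomial (Finsupp.single r (β r)) 1) = Polynomial.X ^ β r := by
    rw [← X_pow_eq_monomial, map_pow]
    simp [ev]
  have h2 : ev r (monomial (β.erase r) c) = Polynomial.C (monomial (β.erase r) c) := by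
    rw [ev, aeval_monomial, monomial_eq, map_mul, Finsupp.prod, Finsupp.prod, map_prod]
    congr 1
    refine Finset.prod_congr rfl fun k hk => ?_
    have : k ≠ r := by
      rintro rfl
      simp at hk
    simp [this]
  rw [h1, h2, mul_comm, Polynomial.C_mul_X_pow_eq_monomial]

/-- The coefficient of `y_r ^ d`. -/
noncomputable def top (r : Fin n) (d : ℕ) : K n →ₗ[ℂ] K n :=
  (Polynomial.lcoeff (K n) d).restrictScalars ℂ ∘ₗ (ev r).toLinearMap

lemma top_apply (r : Fin n) (d : ℕ) (f : K n) : top r d f = (ev r f).coeff d := rfl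

lemma top_monomial (r : Fin n) (d : ℕ) (β : Fin n →₀ ℕ) (c : ℂ) :
    top r d (monomial β c) = if β r = d then monomial (β.erase r) c else 0 := by
  rw [top_apply, ev_monomial, Polynomial.coeff_monomial]

lemma coeff_top (r : Fin n) (d : ℕ) (f : K n) (β : Fin n →₀ ℕ) :
    coeff β (top r d f) = if β r = 0 then coeff (β + Finsupp.single r d) f else 0 := by
  induction f using MvPolynomial.induction_on' with
  | add p q hp hq =>
    rw [map_add, coeff_add, hp, hq]
    split_ifs <;> simp
  | monomial u c =>
    rw [top_monomial]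
    by_cases h0 : β r = 0
    · rw [if_pos h0, coeff_monomial]
      by_cases h1 : u r = d
      · rw [if_pos h1, coeff_monomial]
        congr 1
        apply propext
        constructor
        · intro e
          rw [← e, ← h1, Finsupp.erase_add_single]
        · intro e
          ext k
          rcases eq_or_ne k r with rfl | hk
          · simp [h0]
          · simp [e, Finsupp.erase_ne hk, Finsupp.single_eq_of_ne hk]
      · rw [if_neg h1, if_neg]
        · simp
        · intro e
          apply h1
          simp [e, h0]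
    · rw [if_neg h0]
      split_ifs
      · rw [coeff_monomial, if_neg]
        intro e
        apply h0
        simp [← e]
      · simp

lemma natDegree_ev_le (r : Fin n) (f : K n) : (ev r f).natDegree ≤ degreeOf r f := by
  rw [Polynomial.natDegree_le_iff_coeff_eq_zero]
  intro d hd
  rw [← top_apply]
  ext β
  rw [coeff_top, coeff_zero]
  split_ifs with h
  · by_contra hne
    have := monomial_le_degreeOf r (mem_support_iff.mpr hne)
    simp at this
    omega
  · rfl

lemma top_mul {r : Fin n} {d1 d2 : ℕ} {f g : K n} (h1 : degreeOf r f ≤ d1)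
    (h2 : degreeOf r g ≤ d2) : top r (d1 + d2) (f * g) = top r d1 f * top r d2 g := by
  simp only [top_apply, map_mul]
  exact Polynomial.coeff_mul_add_eq_of_natDegree_le ((natDegree_ev_le r f).trans h1)
    ((natDegree_ev_le r g).trans h2)

lemma top_zero_of_degreeOf {r : Fin n} {g : K n} (h : degreeOf r g = 0) : top r 0 g = g := by
  ext β
  rw [coeff_top]
  split_ifs with h0
  · simp
  · by_contra hne
    have := monomial_le_degreeOf r (mem_support_iff.mpr (Ne.symm hne))
    omega

lemma top_prod {ι : Type*} {r : Fin n} (t : Finset ι) {d : ι → ℕ} {f : ι → K n}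
    (h : ∀ j ∈ t, degreeOf r (f j) ≤ d j) :
    top r (∑ j ∈ t, d j) (∏ j ∈ t, f j) = ∏ j ∈ t, top r (d j) (f j) := by
  classical
  induction t using Finset.induction_on with
  | empty => simpa using top_zero_of_degreeOf (r := r) (g := 1) (by simp)
  | insert a t ha ih =>
    rw [Finset.sum_insert ha, Finset.prod_insert ha, Finset.prod_insert ha,
      top_mul (h a (Finset.mem_insert_self _ _)), ih (fun j hj => h j (Finset.mem_insert_of_mem hj))]
    exact (degreeOf_prod_le _ _ _).trans
      (Finset.sum_le_sum fun j hj => h j (Finset.mem_insert_of_mem hj))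

lemma mapDomain_perm_apply (σ : Perm (Fin n)) (β : Fin n →₀ ℕ) (r : Fin n) :
    (β.mapDomain σ) r = β (σ⁻¹ r) := by
  have := Finsupp.mapDomain_apply σ.injective β (σ⁻¹ r)
  simpa using this

lemma top_rename {σ : Perm (Fin n)} {r : Fin n} (hσ : σ r = r) (d : ℕ) (f : K n) :
    top r d (rename σ f) = rename σ (top r d f) := by
  have hσ' : σ⁻¹ r = r := by rw [Perm.inv_eq_iff_eq, hσ]
  induction f using MvPolynomial.induction_on' with
  | add p q hp hq => simp only [map_add, hp, hq]
  | monomial u c =>
    rw [rename_monomial, top_monomial, top_monomial, mapDomain_perm_apply, hσ']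
    split_ifs
    · rw [rename_monomial]
      congr 2
      ext k
      rw [mapDomain_perm_apply]
      rcases eq_or_ne k r with rfl | hk
      · simp [hσ']
      · have : σ⁻¹ k ≠ r := by
          intro e
          apply hk
          rw [← hσ, ← e]; simp
        rw [Finsupp.erase_ne hk, Finsupp.erase_ne this, mapDomain_perm_apply]
    · simp

/-- The top coefficient in `y_r` is a nonzero constant. -/
def Monicish (r : Fin n) (f : K n) : Prop := f ≠ 0 ∧ ∃ c : ℂ, c ≠ 0 ∧ top r (degreeOf r f) f = C c

lemma Monicish.one (r : Fin n) : Monicish r (1 : K n) :=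
  ⟨one_ne_zero, 1, one_ne_zero, by
    simpa using top_zero_of_degreeOf (r := r) (g := 1) (by simp)⟩

lemma Monicish.mul {r : Fin n} {f g : K n} (hf : Monicish r f) (hg : Monicish r g) :
    Monicish r (f * g) := by
  obtain ⟨h1, c, hc, h2⟩ := hf
  obtain ⟨h3, c', hc', h4⟩ := hg
  refine ⟨mul_ne_zero h1 h3, c * c', mul_ne_zero hc hc', ?_⟩
  rw [degreeOf_mul_eq h1 h3, top_mul le_rfl le_rfl, h2, h4, map_mul]

lemma Monicish.pow {r : Fin n} {f : K n} (hf : Monicish r f) (k : ℕ) : Monicish r (f ^ k) := by
  induction k with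
  | zero => simpa using Monicish.one r
  | succ k ih => rw [pow_succ]; exact ih.mul hf

lemma monicish_X_sub_X {r a b : Fin n} (h : a ≠ b) (hr : a = r ∨ b = r) :
    Monicish r (X a - X b : K n) := by
  refine ⟨X_sub_X_ne_zero h, ?_⟩
  rw [degreeOf_X_sub_X h]
  rcases hr with rfl | rfl
  · refine ⟨1, one_ne_zero, ?_⟩
    simp [top_apply, ev, h.symm, Polynomial.coeff_C]
  · refine ⟨-1, by simp, ?_⟩
    simp [top_apply, ev, h, Polynomial.coeff_C]

lemma monicish_vd {r : Fin n} {e : Fin n → Fin n → ℕ}
    (he : ∀ a b, a ≠ r → b ≠ r → e a b = 0) : Monicish r (vd e) := by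
  unfold vd
  refine Finset.prod_induction _ (Monicish r) (fun _ _ => Monicish.mul) (Monicish.one r) ?_
  intro a _
  refine Finset.prod_induction _ (Monicish r) (fun _ _ => Monicish.mul) (Monicish.one r) ?_
  intro b hb
  by_cases h : a = r ∨ b = r
  · exact (monicish_X_sub_X (Finset.mem_Ioi.mp hb).ne h).pow _
  · rw [not_or] at h
    rw [he a b h.1 h.2, pow_zero]
    exact Monicish.one r

lemma degreeOf_altK_monomial {μ : Fin n → ℕ} {b : Fin n →₀ ℕ} {r : Fin n} {d : ℕ}
    (h : ∀ ν, μ ν = μ r → b ν ≤ d) : degreeOf r (altK μ (monomial b 1)) ≤ d := by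
  rw [altK_apply]
  refine (degreeOf_sum_le _ _ _).trans (Finset.sup_le fun σ hσ => ?_)
  rw [rename_monomial, smul_monomial, degreeOf_le_iff]
  intro β hβ
  have := support_monomial_subset hβ
  rw [Finset.mem_singleton] at this
  rw [this, mapDomain_perm_apply]
  exact h _ (mem_stab.mp (inv_mem_stab hσ) r)

/-! Arithmetic of the windows. -/

/-- Level of `t` in the `j`-th factor. -/
def al (m j t : ℕ) : ℕ := (t + j) / m

/-- The range counted by the second exponent. -/
def inR (m j a a' : ℕ) : Prop := m * al m j a ≤ a' + j + 1 ∧ a' + j < m * (al m j a + 1)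

instance (m j a a' : ℕ) : Decidable (inR m j a a') := by unfold inR; infer_instance

lemma al_le (m j a : ℕ) : m * al m j a ≤ a + j := Nat.mul_div_le _ _

lemma lt_al {m : ℕ} (hm : 0 < m) (j a : ℕ) : a + j < m * (al m j a + 1) :=
  Nat.lt_mul_div_succ _ hm

lemma al_eq_iff {m : ℕ} (hm : 0 < m) {j a c : ℕ} :
    al m j a = c ↔ m * c ≤ a + j ∧ a + j < m * (c + 1) := by
  constructor
  · rintro rfl
    exact ⟨al_le m j a, lt_al hm j a⟩
  · rintro ⟨h1, h2⟩
    exact Nat.div_eq_of_lt_le (by rwa [mul_comm]) (by rwa [mul_comm])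

lemma inR_iff {m : ℕ} (hm : 0 < m) {j a a' : ℕ} :
    inR m j a a' ↔ al m j a' = al m j a ∨ a' + j + 1 = m * al m j a := by
  rw [al_eq_iff hm, inR, mul_add, mul_one]
  omega

lemma inR_of_eq {m : ℕ} (hm : 0 < m) {j a a' : ℕ} (h : al m j a' = al m j a) : inR m j a a' :=
  (inR_iff hm).mpr (Or.inl h)

lemma inR_congr {m j a b a' : ℕ} (h : al m j a = al m j b) : inR m j a a' ↔ inR m j b a' := by
  simp only [inR, h]

lemma exists_cut {m : ℕ} (hm : 0 < m) {a a' : ℕ} (h1 : a' < a) (h2 : a ≤ a' + m) :
    ∃ j < m, a' + j + 1 = m * al m j a := by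
  have h3 := Nat.mod_lt a' hm
  have h4 := Nat.div_add_mod a' m
  refine ⟨m - 1 - a' % m, by omega, ?_⟩
  have : al m (m - 1 - a' % m) a = a' / m + 1 := by
    rw [al_eq_iff hm]
    simp only [mul_add, mul_one]
    omega
  rw [this, mul_add, mul_one]
  omega

lemma card_cut {m : ℕ} (hm : 0 < m) (a a' : ℕ) :
    ((range m).filter (fun j => a' + j + 1 = m * al m j a)).card =
      if a' < a ∧ a ≤ a' + m then 1 else 0 := by
  split_ifs with h
  · obtain ⟨j, hj, e⟩ := exists_cut hm h.1 h.2
    rw [Finset.card_eq_one]
    refine ⟨j, ?_⟩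
    ext i
    simp only [Finset.mem_filter, Finset.mem_range, Finset.mem_singleton]
    constructor
    · rintro ⟨hi, e'⟩
      rcases lt_trichotomy (al m i a) (al m j a) with h' | h' | h'
      · have := Nat.mul_le_mul_left m (Nat.succ_le_of_lt h')
        rw [Nat.mul_succ] at this
        omega
      · rw [h'] at e'
        omega
      · have := Nat.mul_le_mul_left m (Nat.succ_le_of_lt h')
        rw [Nat.mul_succ] at this
        omega
    · rintro rfl
      exact ⟨hj, e⟩
  · rw [Finset.card_eq_zero, Finset.filter_eq_empty_iff]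
    intro j hj e
    have h1 := al_le m j a
    have h2 := lt_al hm j a
    rw [mul_add, mul_one] at h2
    rw [Finset.mem_range] at hj
    omega

lemma sum_inR {m : ℕ} (hm : 0 < m) (a a' : ℕ) :
    (∑ j ∈ range m, if inR m j a a' then 1 else 0) =
      (∑ j ∈ range m, if al m j a = al m j a' then 1 else 0) +
        if a' < a ∧ a ≤ a' + m then 1 else 0 := by
  rw [← card_cut hm, Finset.card_filter, ← Finset.sum_add_distrib]
  refine Finset.sum_congr rfl fun j _ => ?_
  have h1 := al_le m j a'
  by_cases h : al m j a = al m j a'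
  · rw [if_pos (inR_of_eq hm h.symm), if_pos h, if_neg (by rw [h]; omega)]
  · simp only [inR_iff hm, h, Ne.symm h, false_or, if_false, zero_add]

lemma sum_al {m : ℕ} (hm : 0 < m) (t : ℕ) : ∑ j ∈ range m, al m j t = t := by
  induction t with
  | zero =>
    refine Finset.sum_eq_zero fun j hj => ?_
    simp [al, Nat.div_eq_of_lt (Finset.mem_range.mp hj)]
  | succ t ih =>
    have h1 := Finset.sum_range_succ (fun j => al m j t) m
    have h2 := Finset.sum_range_succ' (fun j => al m j t) m
    have h3 : ∀ j, al m (j + 1) t = al m j (t + 1) := fun j => by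
      simp only [al]; congr 1; omega
    have h4 : al m m t = al m 0 t + 1 := by simp [al, Nat.add_div_right _ hm]
    simp only [h3] at h2
    omega

lemma al_mono (m j : ℕ) : Monotone (al m j) := fun _ _ h =>
  Nat.div_le_div_right (Nat.add_le_add_right h _)

lemma sum_al_eq_le {m : ℕ} (hm : 0 < m) {a a' : ℕ} (h : a ≤ a') :
    (∑ j ∈ range m, if al m j a = al m j a' then 1 else 0) ≤ m - (a' - a) := by
  by_cases h1 : a + m ≤ a'
  · rw [Finset.sum_eq_zero]
    · exact Nat.zero_le _
    · intro j _
      rw [if_neg]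
      have h2 := al_mono m j h1
      have h3 : al m j (a + m) = al m j a + 1 := by
        simp only [al]; rw [add_right_comm, Nat.add_div_right _ hm]
      omega
  · have h2 : ∑ j ∈ range m, (al m j a' + if al m j a = al m j a' then 1 else 0) ≤
        ∑ j ∈ range m, (al m j a + 1) := by
      refine Finset.sum_le_sum fun j _ => ?_
      have h2 := al_mono m j (show a' ≤ a + m by omega)
      have h3 : al m j (a + m) = al m j a + 1 := by
        simp only [al]; rw [add_right_comm, Nat.add_div_right _ hm]
      split_ifs <;> omega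
    simp only [Finset.sum_add_distrib, sum_al hm, Finset.sum_const, Finset.card_range,
      smul_eq_mul, mul_one] at h2
    omega

end Pool.Agent.Lib.MP_ef3722_al
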